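import Pool.Agent.Work.MP_85af13_lc.Lang

/-!
Cycle rank modulo parts which the backward random walk leaves quickly.
-/

set_option autoImplicit false

namespace Pool.Agent.Work.MP_85af13_lc

namespace MultiDigraph

variable {V : Type} [Fintype V] (D : MultiDigraph V)

/-- There is a directed walk from `u` to `v` inside `R`. -/
def Reach (R : Set V) : V → V → Prop :=
  Relation.ReflTransGen (fun a b => a ∈ R ∧ b ∈ R ∧ 0 < D.m a b)

/-- The strongly connected component of `v` in the subgraph induced by `R`. -/
def comp (R : Set V) (v : V) : Set V := {w | w ∈ R ∧ D.Reach R v w ∧ D.Reach R w v}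

/-- The walk which goes from `v` to `w` with probability `m w v / outDeg v` leaves `R` in expected
time at most `b`, from every starting vertex; `h` is an integral upper bound of these times. -/
def Exit (b : ℕ) (R : Set V) : Prop :=
  ∃ h : V → ℕ, (∀ v, h v ≤ b) ∧ (∀ v, v ∉ R → h v = 0) ∧
    ∀ v ∈ R, D.outDeg v + ∑ w, D.m w v * h w ≤ D.outDeg v * h v

/-- Cycle rank at most `r` modulo parts with exit time at most `b`: the parts themselves have rank
`0`, and `R` has rank at most `r + 1` if in every strongly connected component one vertex can be
deleted such that the rest has rank at most `r`. -/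
def Rank (b : ℕ) : ℕ → Set V → Prop
  | 0, R => D.Exit b R
  | r + 1, R => ∀ v ∈ R, ∃ s, Rank b r (D.comp R v \ {s})

end MultiDigraph

end Pool.Agent.Work.MP_85af13_lc
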