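import Pool.Agent.Work.MP_85af13_lc.Rank.Th
import Pool.Agent.Work.MP_85af13_lc.Rank.Defs

/-!
Monotonicity of the rank, rounds of parallel firing, doubling.
-/

set_option autoImplicit false
set_option linter.unusedSectionVars false

namespace Pool.Agent.Work.MP_85af13_lc

namespace MultiDigraph

variable {V : Type} [Fintype V] [DecidableEq V] (D : MultiDigraph V)

theorem reach_mono {R R' : Set V} (h : R' ⊆ R) {u v : V} (h' : D.Reach R' u v) : D.Reach R u v := by
  unfold Reach at h'
  induction h' with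
  | refl => exact Relation.ReflTransGen.refl
  | tail _ hab ih => exact Relation.ReflTransGen.tail ih ⟨h hab.1, h hab.2.1, hab.2.2⟩

theorem comp_mono {R R' : Set V} (h : R' ⊆ R) (v : V) : D.comp R' v ⊆ D.comp R v :=
  fun _ hw => ⟨h hw.1, D.reach_mono h hw.2.1, D.reach_mono h hw.2.2⟩

theorem comp_sub (R : Set V) (v : V) : D.comp R v ⊆ R := fun _ hw => hw.1

theorem mem_comp {R : Set V} {v : V} (hv : v ∈ R) : v ∈ D.comp R v :=
  ⟨hv, Relation.ReflTransGen.refl, Relation.ReflTransGen.refl⟩

theorem exit_mono {b : ℕ} {R R' : Set V} (h : R' ⊆ R) (h' : D.Exit b R) : D.Exit b R' := by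
  classical
  obtain ⟨g, h1, h2, h3⟩ := h'
  refine ⟨fun v => if v ∈ R' then g v else 0, fun v => ?_, fun v hv => if_neg hv, fun v hv => ?_⟩
  · show (if v ∈ R' then g v else 0) ≤ b
    split_ifs
    · exact h1 v
    · exact Nat.zero_le _
  · simp only [if_pos hv]
    refine le_trans ?_ (h3 v (h hv))
    refine Nat.add_le_add_left (D.inflow_mono fun w => ?_) _
    split_ifs
    · exact le_rfl
    · exact Nat.zero_le _

theorem rank_mono {b : ℕ} : ∀ (r : ℕ) {R R' : Set V}, R' ⊆ R → D.Rank b r R → D.Rank b r R'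
  | 0, _, _, h, h' => D.exit_mono h h'
  | r + 1, _, _, h, h' => fun v hv => by
    obtain ⟨s, hs⟩ := h' v (h hv)
    exact ⟨s, rank_mono r (Set.sdiff_subset_sdiff_left (D.comp_mono h v)) hs⟩

theorem exit_bound_mono {b b' : ℕ} (h : b ≤ b') {R : Set V} (h' : D.Exit b R) : D.Exit b' R := by
  obtain ⟨g, h1, h2⟩ := h'
  exact ⟨g, fun v => (h1 v).trans h, h2⟩

theorem rank_bound_mono {b b' : ℕ} (h : b ≤ b') : ∀ (r : ℕ) {R : Set V}, D.Rank b r R → D.Rank b' r R
  | 0, _, h' => D.exit_bound_mono h h'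
  | r + 1, _, h' => fun v hv => by
    obtain ⟨s, hs⟩ := h' v hv
    exact ⟨s, rank_bound_mono h r hs⟩

/-- the deleted vertex can be taken in the component -/
theorem rank_vertex {b r : ℕ} {R : Set V} (h : D.Rank b (r + 1) R) {v : V} (hv : v ∈ R) :
    ∃ s ∈ D.comp R v, D.Rank b r (D.comp R v \ {s}) := by
  obtain ⟨s, hs⟩ := h v hv
  by_cases hsC : s ∈ D.comp R v
  · exact ⟨s, hsC, hs⟩
  · refine ⟨v, D.mem_comp hv, D.rank_mono r ?_ hs⟩
    intro w hw
    exact ⟨hw.1, fun h0 => hsC (h0 ▸ hw.1)⟩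

/-- the increment in one doubling step -/
theorem Lst.double {y : V → ℕ} {R : Set V} {t u a : V → ℕ} (hE : ∀ v, D.outDeg v = D.inDeg v)
    (h : D.Lst y R t u) (ha : D.Lst (fun v => y v / 2) R (fun v => t v / 2) a)
    {g : V → ℕ} (hg0 : ∀ v, v ∉ R → g v = 0)
    (hg : ∀ v ∈ R, D.outDeg v + ∑ w, D.m w v * g w ≤ D.outDeg v * g v) (v : V) (hv : v ∈ R) :
    u v ≤ 2 * a v + 2 * g v := by
  classical
  have h1 := h.2.2 (fun v => if v ∈ R then 2 * a v + 2 * g v else t v) (fun w hw => (if_neg hw).ge) (by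
    intro v hv
    simp only [if_pos hv]
    have h2 : ∑ w, D.m w v * (if w ∈ R then 2 * a w + 2 * g w else t w) ≤
        2 * (∑ w, D.m w v * a w) + 2 * (∑ w, D.m w v * g w) + D.outDeg v := by
      rw [hE v, inDeg, Finset.mul_sum, Finset.mul_sum, ← Finset.sum_add_distrib,
        ← Finset.sum_add_distrib]
      refine Finset.sum_le_sum fun w _ => ?_
      have h3 : (if w ∈ R then 2 * a w + 2 * g w else t w) ≤ 2 * a w + 2 * g w + 1 := by
        split_ifs with hw
        · omega
        · have h31 : a w = t w / 2 := ha.1 w hw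
          have h32 := hg0 w hw
          omega
      calc D.m w v * (if w ∈ R then 2 * a w + 2 * g w else t w)
          ≤ D.m w v * (2 * a w + 2 * g w + 1) := Nat.mul_le_mul_left _ h3
        _ = 2 * (D.m w v * a w) + 2 * (D.m w v * g w) + D.m w v := by ring
    have h4 := ha.2.1 v hv
    have h5 := hg v hv
    have h6 : D.outDeg v * (2 * a v + 2 * g v + 1) =
        2 * (D.outDeg v * (a v + 1)) + 2 * (D.outDeg v * g v) - D.outDeg v := by
      have : 2 * (D.outDeg v * (a v + 1)) + 2 * (D.outDeg v * g v) =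
          D.outDeg v * (2 * a v + 2 * g v + 1) + D.outDeg v := by ring
      omega
    rw [h6]
    have h7 : y v / 2 + ∑ w, D.m w v * a w < D.outDeg v * (a v + 1) := h4
    omega) v
  simp only [if_pos hv] at h1
  exact h1

/-- One round of parallel firing. -/
def fireAll (y : V → ℕ) (R : Set V) [DecidablePred (· ∈ R)] (u : V → ℕ) (v : V) : ℕ :=
  if v ∈ R ∧ D.outDeg v * (u v + 1) ≤ y v + ∑ w, D.m w v * u w then u v + 1 else u v

theorem fireAll_iter {y : V → ℕ} {R : Set V} [DecidablePred (· ∈ R)] {t u : V → ℕ}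
    (h : D.Lst y R t u) : ∀ (B : ℕ) (u₀ : V → ℕ), (∀ v, v ∉ R → u₀ v = t v) → (∀ v, u₀ v ≤ u v) →
      ∑ v, (u v - u₀ v) ≤ B → (D.fireAll y R)^[B] u₀ = u := by
  intro B
  induction B with
  | zero =>
    intro u₀ _ h2 h3
    funext v
    have h4 : u v - u₀ v = 0 := by
      have h5 : u v - u₀ v ≤ ∑ v, (u v - u₀ v) := Finset.single_le_sum (f := fun v => u v - u₀ v)
        (fun w _ => Nat.zero_le _) (Finset.mem_univ v)
      omega
    have := h2 v
    show u₀ v = u v
    omega
  | succ B ih =>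
    intro u₀ h1 h2 h3
    rw [Function.iterate_succ_apply]
    have hle : ∀ v, D.fireAll y R u₀ v ≤ u v := by
      intro v
      unfold fireAll
      split_ifs with hh
      · by_contra hcon
        have h5 : u₀ v = u v := by have := h2 v; omega
        have h6 := h.2.1 v hh.1
        have h7 : y v + ∑ w, D.m w v * u₀ w ≤ y v + ∑ w, D.m w v * u w :=
          Nat.add_le_add_left (D.inflow_mono h2) _
        have h8 := hh.2
        rw [h5] at h8
        omega
      · exact h2 v
    have hge : ∀ v, u₀ v ≤ D.fireAll y R u₀ v := by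
      intro v
      unfold fireAll
      split_ifs
      · exact Nat.le_succ _
      · exact le_rfl
    refine ih _ (fun v hv => ?_) hle ?_
    · unfold fireAll
      rw [if_neg fun h0 => hv h0.1]
      exact h1 v hv
    · by_cases hq : D.Quiet y R u₀
      · have h4 : ∀ v, u v ≤ u₀ v := h.2.2 u₀ (fun v hv => (h1 v hv).ge) hq
        have h5 : ∑ v, (u v - D.fireAll y R u₀ v) = 0 :=
          Finset.sum_eq_zero fun v _ => by have := h4 v; have := hge v; omega
        omega
      · obtain ⟨v, hv, hvq⟩ : ∃ v ∈ R, ¬ (y v + ∑ w, D.m w v * u₀ w < D.outDeg v * (u₀ v + 1)) := by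
          by_contra hcon
          push Not at hcon
          exact hq hcon
        have h5 : D.fireAll y R u₀ v = u₀ v + 1 := by
          unfold fireAll
          rw [if_pos ⟨hv, not_lt.1 hvq⟩]
        have h6 : ∑ v, (u v - D.fireAll y R u₀ v) < ∑ v, (u v - u₀ v) := by
          refine Finset.sum_lt_sum (fun w _ => ?_) ⟨v, Finset.mem_univ _, ?_⟩
          · have := hge w; omega
          · have := hle v; omega
        omega

/-- one doubling step and enough rounds -/
theorem double_rounds (hE : ∀ v, D.outDeg v = D.inDeg v) {y : V → ℕ} {R : Set V}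
    [DecidablePred (· ∈ R)] {t u a : V → ℕ} {b : ℕ} (hR : D.Exit b R)
    (h : D.Lst y R t u) (ha : D.Lst (fun v => y v / 2) R (fun v => t v / 2) a) (B : ℕ)
    (hB : 2 * b * Fintype.card V ≤ B) :
    (D.fireAll y R)^[B] (fun v => if v ∈ R then 2 * a v else t v) = u := by
  obtain ⟨g, hg1, hg2, hg3⟩ := hR
  refine D.fireAll_iter h B _ (fun v hv => if_neg hv) (fun v => ?_) ?_
  · show (if v ∈ R then 2 * a v else t v) ≤ u v
    split_ifs with hv
    · exact h.half D ha v
    · exact (h.1 v hv).ge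
  · have h1 : ∀ v, u v - (if v ∈ R then 2 * a v else t v) ≤ 2 * b := by
      intro v
      split_ifs with hv
      · have := h.double D hE ha hg2 hg3 v hv
        have := hg1 v
        omega
      · rw [h.1 v hv]
        omega
    calc ∑ v, (u v - (if v ∈ R then 2 * a v else t v)) ≤ ∑ _v : V, 2 * b :=
          Finset.sum_le_sum fun v _ => h1 v
      _ = 2 * b * Fintype.card V := by
        rw [Finset.sum_const, Finset.card_univ, smul_eq_mul, mul_comm]
      _ ≤ B := hB

end MultiDigraph

end Pool.Agent.Work.MP_85af13_lc
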