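import Pool.Agent.Work.MP_85af13_lc.Check
import Pool.Agent.Work.MP_85af13_lc.Rank.Easy

/-!
The algorithm for bounded cycle rank.
-/

set_option autoImplicit false

namespace Pool.Agent.Work.MP_85af13_lc

open Pool.Agent.Work.PolyTime
open Pool.Agent.Work.MP_63b90e_lc (addB shiftB)
open Pool.Agent.Work.MP_62a643_lc (leB)

/-- The values of a list of binary numbers. -/
def vs (n : ℕ) (Z : List (List Bool)) (v : Fin n) : ℕ := binVal (Z.getD v [])

/-- The set of vertices given by a list. -/
def stx (n : ℕ) (R : List ℕ) : Set (Fin n) := {v | (v : ℕ) ∈ R}

/-- Table of `n` numbers, truncated to `w` digits. -/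
def tbl (n w : ℕ) (g : ℕ → List Bool) : List (List Bool) :=
  (List.range n).map fun v => (g v).take w

/-- Is `v` active after the script `Z`, starting from the chips `Y`? -/
def hotC (I : Inst) (Y Z : List (List Bool)) (v : ℕ) : Bool :=
  leB (mulB (degL I v) (addB (Z.getD v []) [true]))
    (addB (Y.getD v []) (sumL ((List.range I.2.length).map fun u =>
      mulB (mlB I u v) (Z.getD u []))))

/-- One round of parallel firing on `R`. -/
def fireR (I : Inst) (w : ℕ) (R : List ℕ) (Y Z : List (List Bool)) : List (List Bool) :=
  tbl I.2.length w fun v => bif memB v R && hotC I Y Z v then addB (Z.getD v []) [true]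
    else Z.getD v []

/-- `B` rounds of parallel firing. -/
def roundsR (I : Inst) (w B : ℕ) (R : List ℕ) (Y Z : List (List Bool)) : List (List Bool) :=
  (List.range B).foldl (fun Z _ => fireR I w R Y Z) Z

/-- One doubling step: from the script for the chips and frozen values divided by `2 ^ (j + 1)` to
the script for those divided by `2 ^ j`. -/
def dblR (I : Inst) (w B : ℕ) (R : List ℕ) (t Z : List (List Bool)) (j : ℕ) :
    List (List Bool) :=
  roundsR I w B R (I.2.map fun l => l.drop j)
    (tbl I.2.length w fun v => bif memB v R then false :: Z.getD v [] else (t.getD v []).drop j)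

/-- The least script with frozen values `t` off `R`, for `R` with short exit times. -/
def baseR (I : Inst) (w B : ℕ) (R : List ℕ) (t : List (List Bool)) : List (List Bool) :=
  (List.range w).reverse.foldl (fun Z j => dblR I (w + 1) B R t Z j) []

/-- Forward reachability from `v` in `R`. -/
def fwL (I : Inst) (R : List ℕ) (v : ℕ) : List ℕ :=
  growN I.2.length (fun S x => memB x R && (decide (x = v) ||
    S.any fun u => leB [true] (mlB I u x))) I.2.length

/-- Backward reachability from `v` in `R`. -/
def bwL (I : Inst) (R : List ℕ) (v : ℕ) : List ℕ :=
  growN I.2.length (fun S x => memB x R && (decide (x = v) ||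
    S.any fun u => leB [true] (mlB I x u))) I.2.length

/-- The strong component of `v` in `R`. -/
def compL (I : Inst) (R : List ℕ) (v : ℕ) : List ℕ :=
  (fwL I R v).filter fun x => memB x (bwL I R v)

/-- Binary search for the least number with `m` digits satisfying a monotone predicate. -/
def bsearch (P : List Bool → Bool) (m : ℕ) : List Bool :=
  (List.range m).reverse.foldl (fun hd k =>
    (!(P (List.replicate k true ++ false :: hd))) :: hd) []

/-- Minimum of a list of binary numbers. -/
def minL (l : List (List Bool)) : List Bool :=
  l.foldl (fun m a => bif leB a m then a else m) (l.getD 0 [])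

/-- Replace the value at `s`. -/
def updL (n w : ℕ) (Z : List (List Bool)) (s : ℕ) (τ : List Bool) : List (List Bool) :=
  tbl n w fun x => bif decide (x = s) then τ else Z.getD x []

/-- Are all vertices of `C` inactive after the script `Z`? -/
def quietB (I : Inst) (C : List ℕ) (Z : List (List Bool)) : Bool :=
  C.all fun x => !(hotC I I.2 Z x)

/-- The value at `s` found by binary search with the subroutine `F` for `C` without `s`. -/
def tauL (I : Inst) (F : List ℕ → List (List Bool) → List (List Bool)) (w : ℕ) (C : List ℕ)
    (u : List (List Bool)) (s : ℕ) : List Bool :=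
  bsearch (fun τ => !(hotC I I.2 (F (C.filter fun x => !(decide (x = s)))
    (updL I.2.length w u s τ)) s)) w

/-- The candidate for `C` obtained from `s`. -/
def candL (I : Inst) (F : List ℕ → List (List Bool) → List (List Bool)) (w : ℕ) (C : List ℕ)
    (u : List (List Bool)) (s : ℕ) : List (List Bool) :=
  tbl I.2.length w fun x => bif memB x C then
    (F (C.filter fun x => !(decide (x = s))) (updL I.2.length w u s (tauL I F w C u s))).getD x []
    else u.getD x []

/-- The new value at `v`. -/
def newL (I : Inst) (F : List ℕ → List (List Bool) → List (List Bool)) (w : ℕ) (C : List ℕ)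
    (u : List (List Bool)) (v : ℕ) : List Bool :=
  minL ((C.filter fun s => quietB I C (candL I F w C u s)).map fun s =>
    (candL I F w C u s).getD v [])

/-- One round: all components of `R` are recomputed. -/
def roundL (I : Inst) (F : List ℕ → List (List Bool) → List (List Bool)) (w : ℕ) (R : List ℕ)
    (u : List (List Bool)) : List (List Bool) :=
  tbl I.2.length w fun v => bif memB v R then newL I F w (compL I R v) u v else u.getD v []

/-- The algorithm: least script with frozen values `t` off `R`. Frozen values have `w` digits, the
result has `w + 1` digits. -/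
def solve (I : Inst) (B : ℕ) : ℕ → ℕ → List ℕ → List (List Bool) → List (List Bool)
  | 0, w, R, t => baseR I w B R t
  | r + 1, w, R, t => (List.range I.2.length).foldl
      (fun u _ => roundL I (solve I B r (w + 1)) (w + 1) R u)
      (tbl I.2.length (w + 1) fun v => bif memB v R then [] else t.getD v [])

/-- The test for termination. -/
def haltR (r : ℕ) (I : Inst) (W B : ℕ) : Bool :=
  eulB I && (List.range I.2.length).all fun v =>
    !(hotC I I.2 (solve I B r (W + 1) ((List.range I.2.length).filter fun x => !(decide (x = 0)))
      (tbl I.2.length (W + 1) fun v => bif decide (v = 0) then shiftB W [true] else [])) v)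

end Pool.Agent.Work.MP_85af13_lc
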