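import Pool.Agent.Work.MP_85af13_lc.Rank.Easy

/-!
Exit times of components with small out-degrees, and the rank of graphs with a small set S such that
all vertices on cycles avoiding S have small out-degree (MODULE ExitDeg). Mathlib-like, no lists.

(1) final_nonneg: if Lst y R t u then for x in R: outDeg x * u x ≤ y x + sum_w m w x * u w.
Proof: otherwise u x ≥ 1 and u' = update u x (u x - 1) is quiet on R and t off R, below u.
(2) edge_exit: if Lst y R 0 u, v in R, w not in R, 0 < m v w, then u v ≤ sum_{x in R} y x.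
Proof: sum (1) over x in R (Finset.univ.filter, classical): sum_{x in R} outDeg x * u x ≤
sum_{x in R} y x + sum_{w in R} u w * (sum_{x in R} m w x) since u = 0 off R; outDeg w = sum over x in R
+ sum over x not in R; so sum_{w in R} u w * (sum_{x not in R} m w x) ≤ sum_{x in R} y x.
(3) Let C = comp R0 v0, s in C, R = C without s, all v in R with outDeg v ≤ B. Let y v = 2 * outDeg v - 1
and h the least script Lst y R 0 h (existence: lst_exists_of needs a script quiet off q: here use the
hypothesis hex of exit_of_deg, or see below). With N = sum_{x in R} y x ≤ 2 * n * B: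
h v ≤ N * (length of a walk inside C from v to s): for an edge v → w with w = s: (2). For v → w with
w in R: h is Lst y (R \ {w}) (update 0 w (h w)) h by Lst.freeze; let g be Lst y (R \ {w}) 0 g (exists by
lst_exists since h is quiet); Lst.shift gives h v ≤ g v + h w, and g v ≤ N by (2) for R \ {w}.
Walks can be taken of length ≤ n: order the vertices by level sets instead: let A_k = {v in R | h v > k * N};
if A_k is nonempty it has a vertex with an edge out of A_k towards s (every v in C reaches s inside C), so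
A_{k+1} is a proper subset of A_k; hence A_n is empty and h ≤ n * N ≤ 2 * n^2 * B.
Quiet: y v + inflow < outDeg v * (h v + 1) gives outDeg v + inflow ≤ outDeg v * h v, the Exit inequality.
(4) rank_of_few: induction on k = card of S: Rank b (k+1) R for R with: all v in R \ S which lie in a
nontrivial component of the graph induced on R \ S have outDeg ≤ B. Step: for v in R let C = comp R v; if
C meets S delete s in C ∩ S and use S without s and monotonicity; otherwise Rank b (k+1) (C \ {v}) follows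
from the case of the empty S (and rank_succ: Rank b r R implies Rank b (r+1) R, via rank_mono).
Case S empty: C = comp R v; if C is trivial then C \ {v} is empty, Exit trivially; else (3).
-/

set_option autoImplicit false
set_option linter.unusedSectionVars false

namespace Pool.Agent.Work.MP_85af13_lc

namespace MultiDigraph

variable {V : Type} [Fintype V] [DecidableEq V] (D : MultiDigraph V)

/-- Existence of quiet scripts for arbitrary chips off a vertex `q` follows from the theorem rep_main
of Rep.lean: take its script for B = card V * sum of the out-degrees. -/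
theorem exists_quiet (h : D.Eulerian) (y : V → ℕ) (q : V) :
    ∃ z : V → ℕ, D.Quiet y {q}ᶜ z ∧
      ∀ v, z v ≤ Fintype.card V * ∑ u, D.outDeg u + Fintype.card V * ∑ u, y u := by
  obtain ⟨z, ⟨-, -, hs⟩, -, hup, hlo, -⟩ := D.rep_main h y q
    ((Fintype.card V * ∑ u, D.outDeg u : ℕ) : ℤ)
  have hz0 : ∀ v, 0 ≤ z v := by
    intro v
    have h1 := hlo v
    push_cast at h1
    linarith
  have hcast : ∀ v, (((z v).toNat : ℕ) : ℤ) = z v := fun v => Int.toNat_of_nonneg (hz0 v)
  refine ⟨fun v => (z v).toNat, ?_, ?_⟩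
  · intro v hv
    have h1 := hs v (fun h0 => hv (Set.mem_singleton_iff.2 h0))
    unfold Hot lap at h1
    push Not at h1
    have h2 : (((y v + ∑ w, D.m w v * (z w).toNat : ℕ)) : ℤ) <
        ((D.outDeg v * ((z v).toNat + 1) : ℕ) : ℤ) := by
      push_cast
      have h3 : ∑ w, (D.m w v : ℤ) * (((z w).toNat : ℕ) : ℤ) = ∑ w, (D.m w v : ℤ) * z w :=
        Finset.sum_congr rfl fun w _ => by rw [hcast w]
      rw [h3, hcast v]
      linarith
    exact_mod_cast h2
  · intro v
    have h1 := hup v
    have h2 : (((z v).toNat : ℕ) : ℤ) ≤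
        ((Fintype.card V * ∑ u, D.outDeg u + Fintype.card V * ∑ u, y u : ℕ) : ℤ) := by
      rw [hcast v]
      push_cast
      push_cast at h1
      exact h1
    exact_mod_cast h2

theorem final_nonneg {y : V → ℕ} {R : Set V} {t u : V → ℕ} (h : D.Lst y R t u) {x : V}
    (hx : x ∈ R) : D.outDeg x * u x ≤ y x + ∑ w, D.m w x * u w := by
  classical
  by_contra hcon
  push Not at hcon
  have hpos : 0 < u x := by
    rcases Nat.eq_zero_or_pos (u x) with h0 | h0
    · rw [h0, Nat.mul_zero] at hcon
      omega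
    · exact h0
  have hle : ∀ w, Function.update u x (u x - 1) w ≤ u w := by
    intro w
    by_cases hw : w = x
    · subst hw
      rw [Function.update_self]
      omega
    · rw [Function.update_of_ne hw]
  have h1 := h.2.2 (Function.update u x (u x - 1)) (fun v hv => ?_) (fun v hv => ?_) x
  · rw [Function.update_self] at h1
    omega
  · have hvx : v ≠ x := fun h0 => hv (h0 ▸ hx)
    rw [Function.update_of_ne hvx, h.1 v hv]
  · by_cases hvx : v = x
    · subst hvx
      rw [Function.update_self]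
      have h2 : u v - 1 + 1 = u v := by omega
      rw [h2]
      exact lt_of_le_of_lt (Nat.add_le_add_left (D.inflow_mono hle) _) hcon
    · rw [Function.update_of_ne hvx]
      exact lt_of_le_of_lt (Nat.add_le_add_left (D.inflow_mono hle) _) (h.2.1 v hv)

theorem edge_exit {y : V → ℕ} {R : Set V} {u : V → ℕ} (h : D.Lst y R (fun _ => 0) u) {v w : V}
    (hv : v ∈ R) (hw : w ∉ R) (he : 0 < D.m v w) {N : ℕ}
    (hN : ∀ A : Finset V, (∀ x ∈ A, x ∈ R) → ∑ x ∈ A, y x ≤ N) : u v ≤ N := by
  classical
  obtain ⟨A, hA⟩ : ∃ A : Finset V, ∀ x, x ∈ A ↔ x ∈ R :=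
    ⟨Finset.univ.filter (· ∈ R), fun x => by simp⟩
  have h1 : ∑ x ∈ A, D.outDeg x * u x ≤ ∑ x ∈ A, (y x + ∑ z, D.m z x * u z) :=
    Finset.sum_le_sum fun x hx => D.final_nonneg h ((hA x).1 hx)
  rw [Finset.sum_add_distrib, Finset.sum_comm] at h1
  have h2 : ∑ z, ∑ x ∈ A, D.m z x * u z = ∑ z ∈ A, (∑ x ∈ A, D.m z x) * u z := by
    rw [← Finset.sum_subset (Finset.subset_univ A)]
    · exact Finset.sum_congr rfl fun z _ => by rw [Finset.sum_mul]
    · intro z _ hz
      have h3 : u z = 0 := h.1 z (fun h0 => hz ((hA z).2 h0))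
      refine Finset.sum_eq_zero fun x _ => ?_
      rw [h3, Nat.mul_zero]
  rw [h2] at h1
  have h4 : ∑ x ∈ A, D.outDeg x * u x =
      ∑ x ∈ A, (∑ z ∈ A, D.m x z) * u x + ∑ x ∈ A, (∑ z ∈ Aᶜ, D.m x z) * u x := by
    rw [← Finset.sum_add_distrib]
    refine Finset.sum_congr rfl fun x _ => ?_
    rw [← Nat.add_mul, Finset.sum_add_sum_compl]
    rfl
  have h5 : ∑ x ∈ A, (∑ z ∈ Aᶜ, D.m x z) * u x ≤ N := by
    have := hN A (fun x hx => (hA x).1 hx)
    omega
  have h6 : (∑ z ∈ Aᶜ, D.m v z) * u v ≤ ∑ x ∈ A, (∑ z ∈ Aᶜ, D.m x z) * u x :=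
    Finset.single_le_sum (f := fun x => (∑ z ∈ Aᶜ, D.m x z) * u x) (fun x _ => Nat.zero_le _)
      ((hA v).2 hv)
  have h7 : D.m v w ≤ ∑ z ∈ Aᶜ, D.m v z :=
    Finset.single_le_sum (f := fun z => D.m v z) (fun x _ => Nat.zero_le _)
      (Finset.mem_compl.2 fun h0 => hw ((hA w).1 h0))
  have h8 : 1 * u v ≤ (∑ z ∈ Aᶜ, D.m v z) * u v := Nat.mul_le_mul_right _ (by omega)
  omega

/-- A walk which starts inside `P` and ends outside has an edge which leaves `P`. -/
theorem exists_leaving {α : Type} {r : α → α → Prop} (P : α → Prop) {x s : α}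
    (h : Relation.ReflTransGen r x s) (hx : P x) (hs : ¬ P s) :
    ∃ a b, Relation.ReflTransGen r x a ∧ P a ∧ r a b ∧ ¬ P b ∧ Relation.ReflTransGen r b s := by
  induction h using Relation.ReflTransGen.head_induction_on with
  | refl => exact absurd hx hs
  | head h1 h2 ih =>
    rename_i a c
    by_cases hc : P c
    · obtain ⟨a', b', e1, e2, e3, e4, e5⟩ := ih hc
      exact ⟨a', b', Relation.ReflTransGen.head h1 e1, e2, e3, e4, e5⟩
    · exact ⟨a, c, Relation.ReflTransGen.refl, hx, h1, hc, h2⟩

theorem exit_of_deg (hE : D.Eulerian) {R : Set V} {v s : V} {B : ℕ}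
    (hs : s ∈ D.comp R v) (hB : ∀ x ∈ D.comp R v, D.outDeg x ≤ B) :
    D.Exit (2 * Fintype.card V ^ 2 * B) (D.comp R v \ {s}) := by
  classical
  obtain ⟨R1, hR1⟩ : ∃ R1 : Set V, R1 = D.comp R v \ {s} := ⟨_, rfl⟩
  rw [← hR1]
  have hmem : ∀ x, x ∈ R1 ↔ x ∈ D.comp R v ∧ x ≠ s := by
    intro x
    rw [hR1]
    rfl
  obtain ⟨y, hy⟩ : ∃ y : V → ℕ, ∀ x, y x = 2 * D.outDeg x - 1 := ⟨_, fun _ => rfl⟩
  obtain ⟨z, hz, -⟩ := D.exists_quiet hE y s
  have hq : ∀ R' : Set V, R' ⊆ R1 → D.Quiet y R' z := fun R' hR' =>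
    D.quiet_sub hz fun x hx hxs => ((hmem x).1 (hR' hx)).2 (Set.mem_singleton_iff.1 hxs)
  obtain ⟨h, hh⟩ := D.lst_exists (y := y) (R := R1) (t := fun _ => 0)
    ⟨z, fun _ _ => Nat.zero_le _, hq R1 le_rfl⟩
  obtain ⟨N, hNdef⟩ : ∃ N : ℕ, N = Fintype.card V * (2 * B) := ⟨_, rfl⟩
  have hN : ∀ R' : Set V, R' ⊆ R1 → ∀ A : Finset V, (∀ x ∈ A, x ∈ R') → ∑ x ∈ A, y x ≤ N := by
    intro R' hR' A hA
    calc ∑ x ∈ A, y x ≤ ∑ _x ∈ A, 2 * B := by
          refine Finset.sum_le_sum fun x hx => ?_
          have h1 := hB x ((hmem x).1 (hR' (hA x hx))).1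
          rw [hy]
          omega
      _ = A.card * (2 * B) := by rw [Finset.sum_const, smul_eq_mul]
      _ ≤ N := by
        rw [hNdef]
        exact Nat.mul_le_mul_right _ (Finset.card_le_univ _)
  -- one step towards `s`
  have hstep : ∀ a b : V, a ∈ R1 → b ∈ D.comp R v → 0 < D.m a b → b ≠ s → h a ≤ N + h b := by
    intro a b ha hb hab hbs
    have hbR : b ∈ R1 := (hmem b).2 ⟨hb, hbs⟩
    have hne : a ≠ b := by
      rintro rfl
      rw [D.loopless] at hab
      exact lt_irrefl _ hab
    have hsub : R1 \ {b} ⊆ R1 := Set.sdiff_subset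
    obtain ⟨g, hg⟩ := D.lst_exists (y := y) (R := R1 \ {b}) (t := fun _ => 0)
      ⟨z, fun _ _ => Nat.zero_le _, hq _ hsub⟩
    have h1 := hg.shift D hE.2 (h b) (hh.freeze D b) (fun x _ => by
      by_cases hxb : x = b
      · rw [hxb, Function.update_self]
        omega
      · rw [Function.update_of_ne hxb]
        omega) a
    have h2 : g a ≤ N := D.edge_exit hg (w := b) ⟨ha, fun h0 => hne (Set.mem_singleton_iff.1 h0)⟩
      (fun h0 => h0.2 rfl) hab (hN _ hsub)
    omega
  have hfin : ∀ a : V, a ∈ R1 → 0 < D.m a s → h a ≤ N := fun a ha has =>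
    D.edge_exit hh ha (fun h0 => ((hmem s).1 h0).2 rfl) has (hN R1 le_rfl)
  -- level sets
  have hlev : ∀ k : ℕ, (Finset.univ.filter (fun x => x ∈ R1 ∧ k * N < h x)).card ≤
      Fintype.card V - k := by
    intro k
    induction k with
    | zero => exact (Finset.card_le_univ _).trans (by omega)
    | succ k ih =>
      have hsub : (Finset.univ.filter (fun x => x ∈ R1 ∧ (k + 1) * N < h x)) ⊆
          (Finset.univ.filter (fun x => x ∈ R1 ∧ k * N < h x)) := by
        intro x hx
        rw [Finset.mem_filter] at hx ⊢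
        refine ⟨hx.1, hx.2.1, lt_of_le_of_lt ?_ hx.2.2⟩
        exact Nat.mul_le_mul_right _ (Nat.le_succ k)
      rcases Finset.eq_empty_or_nonempty
        (Finset.univ.filter (fun x => x ∈ R1 ∧ k * N < h x)) with he | ⟨x, hx⟩
      · rw [he] at hsub
        rw [Finset.subset_empty.1 hsub, Finset.card_empty]
        exact Nat.zero_le _
      · have hx' := (Finset.mem_filter.1 hx).2
        have hxC := ((hmem x).1 hx'.1).1
        have hreach : D.Reach R x s := Relation.ReflTransGen.trans hxC.2.2 hs.2.1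
        obtain ⟨a, b, e1, e2, e3, e4, e5⟩ := exists_leaving (fun x => x ∈ R1 ∧ k * N < h x) hreach
          hx' (fun h0 => ((hmem s).1 h0.1).2 rfl)
        have haC := ((hmem a).1 e2.1).1
        have hbC : b ∈ D.comp R v :=
          ⟨e3.2.1, Relation.ReflTransGen.tail haC.2.1 e3, Relation.ReflTransGen.trans e5 hs.2.2⟩
        have hha : h a ≤ (k + 1) * N := by
          by_cases hbs : b = s
          · rw [hbs] at e3
            have h1 := hfin a e2.1 e3.2.2
            have h2 : N ≤ (k + 1) * N := Nat.le_mul_of_pos_left N (Nat.succ_pos k)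
            omega
          · have h1 := hstep a b e2.1 hbC e3.2.2 hbs
            have h2 : h b ≤ k * N := by
              by_contra hcon
              exact e4 ⟨(hmem b).2 ⟨hbC, hbs⟩, not_le.1 hcon⟩
            calc h a ≤ N + h b := h1
              _ ≤ N + k * N := by omega
              _ = (k + 1) * N := by ring
        have hss : (Finset.univ.filter (fun x => x ∈ R1 ∧ (k + 1) * N < h x)) ⊂
            (Finset.univ.filter (fun x => x ∈ R1 ∧ k * N < h x)) := by
          rw [Finset.ssubset_iff_of_subset hsub]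
          refine ⟨a, Finset.mem_filter.2 ⟨Finset.mem_univ _, e2⟩, fun h0 => ?_⟩
          have h1 := (Finset.mem_filter.1 h0).2.2
          omega
        have := Finset.card_lt_card hss
        omega
  have hbound : ∀ x ∈ R1, h x ≤ Fintype.card V * N := by
    intro x hx
    by_contra hcon
    have h1 := hlev (Fintype.card V)
    have h2 : 0 < (Finset.univ.filter (fun x => x ∈ R1 ∧ Fintype.card V * N < h x)).card :=
      Finset.card_pos.2 ⟨x, Finset.mem_filter.2 ⟨Finset.mem_univ _, hx, not_le.1 hcon⟩⟩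
    omega
  refine ⟨h, fun x => ?_, hh.1, fun x hx => ?_⟩
  · by_cases hx : x ∈ R1
    · refine (hbound x hx).trans (le_of_eq ?_)
      rw [hNdef]
      ring
    · rw [hh.1 x hx]
      exact Nat.zero_le _
  · have hxC := (hmem x).1 hx
    have hdeg : 1 ≤ D.outDeg x := by
      have hreach : D.Reach R x s := Relation.ReflTransGen.trans hxC.1.2.2 hs.2.1
      obtain ⟨a, b, -, e2, e3, -, -⟩ := exists_leaving (fun z => z = x) hreach rfl
        (fun h0 => hxC.2 h0.symm)
      have e2' : a = x := e2
      rw [e2'] at e3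
      have h1 : D.m x b ≤ D.outDeg x :=
        Finset.single_le_sum (f := fun z => D.m x z) (fun _ _ => Nat.zero_le _) (Finset.mem_univ b)
      have := e3.2.2
      omega
    have h1 := hh.2.1 x hx
    rw [hy, Nat.mul_add] at h1
    omega

theorem exit_empty (b : ℕ) : D.Exit b (∅ : Set V) :=
  ⟨fun _ => 0, fun _ => Nat.zero_le _, fun _ _ => rfl, fun _ hv => absurd hv (Set.notMem_empty _)⟩

theorem rank_succ {b r : ℕ} {R : Set V} (h : D.Rank b r R) : D.Rank b (r + 1) R :=
  fun v _ => ⟨v, D.rank_mono r (fun _ hw => D.comp_sub R v hw.1) h⟩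

theorem rank_one_of_deg (hE : D.Eulerian) {B : ℕ} (R : Set V)
    (h : ∀ v w, v ∈ R → w ∈ D.comp R v → w ≠ v → D.outDeg v ≤ B) :
    D.Rank (2 * Fintype.card V ^ 2 * B) 1 R := by
  classical
  intro v hv
  refine ⟨v, ?_⟩
  by_cases hne : ∃ w ∈ D.comp R v, w ≠ v
  · refine D.exit_of_deg hE (D.mem_comp hv) ?_
    intro x hx
    by_cases hxv : x = v
    · obtain ⟨w, hw, hwv⟩ := hne
      rw [hxv]
      exact h v w hv hw hwv
    · exact h x v hx.1 ⟨hv, hx.2.2, hx.2.1⟩ (fun h0 => hxv h0.symm)
  · have he : D.comp R v \ {v} = ∅ := by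
      ext w
      simp only [Set.mem_sdiff, Set.mem_singleton_iff, Set.mem_empty_iff_false, iff_false, not_and,
        not_not]
      intro hw
      by_contra hcon
      exact hne ⟨w, hw, hcon⟩
    rw [he]
    exact D.exit_empty _

theorem rank_of_few (hE : D.Eulerian) {B : ℕ} : ∀ (S : Finset V) (R : Set V),
    (∀ v w, v ∈ R \ (S : Set V) → w ∈ D.comp (R \ (S : Set V)) v → w ≠ v → D.outDeg v ≤ B) →
    D.Rank (2 * Fintype.card V ^ 2 * B) (S.card + 1) R := by
  classical
  intro S
  induction hk : S.card generalizing S with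
  | zero =>
    intro R h
    have hS : S = ∅ := Finset.card_eq_zero.1 hk
    subst hS
    simp only [Finset.coe_empty, Set.sdiff_empty] at h
    exact D.rank_one_of_deg hE R h
  | succ k ih =>
    intro R h v hv
    by_cases hs : ∃ s ∈ S, s ∈ D.comp R v
    · obtain ⟨s, hsS, hsC⟩ := hs
      refine ⟨s, ih (S.erase s) (by rw [Finset.card_erase_of_mem hsS, hk]; rfl) _ ?_⟩
      have hsub : (D.comp R v \ {s}) \ ((S.erase s : Finset V) : Set V) ⊆ R \ (S : Set V) := by
        rintro x ⟨⟨hx1, hx2⟩, hx3⟩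
        refine ⟨hx1.1, fun hxS => hx3 ?_⟩
        rw [Finset.mem_coe] at hxS ⊢
        exact Finset.mem_erase.2 ⟨fun h0 => hx2 (Set.mem_singleton_iff.2 h0), hxS⟩
      intro a w ha hw hwa
      exact h a w (hsub ha) (D.comp_mono hsub a hw) hwa
    · refine ⟨v, ?_⟩
      have hsub : D.comp R v \ {v} ⊆ R \ (S : Set V) := by
        rintro x ⟨hx1, -⟩
        exact ⟨hx1.1, fun hxS => hs ⟨x, hxS, hx1⟩⟩
      have h1 : D.Rank (2 * Fintype.card V ^ 2 * B) 1 (D.comp R v \ {v}) := by
        refine D.rank_one_of_deg hE _ ?_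
        intro a w ha hw hwa
        exact h a w (hsub ha) (D.comp_mono hsub a hw) hwa
      have h2 : ∀ j : ℕ, D.Rank (2 * Fintype.card V ^ 2 * B) (j + 1) (D.comp R v \ {v}) := by
        intro j
        induction j with
        | zero => exact h1
        | succ j ih2 => exact D.rank_succ ih2
      exact h2 k

end MultiDigraph

end Pool.Agent.Work.MP_85af13_lc
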