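import Pool.Agent.Work.MP_85af13_lc.Rank.TimeA

/-!
Polynomial time of the recursive algorithm (MODULE TimeB). Uses the statements of TimeA.

Subroutines are functions F of a parameter: the hypothesis is that
fun y : α × List ℕ × List (List Bool) => F y.1 y.2.1 y.2.2 is PTime; use .comp with explicit functions,
as in Grow.lean (PTime.growN) and Check.lean.
bsearch: fold over (range m).reverse, states are words of length ≤ m (List.foldl of cons: length = number
of steps; l' <+: l gives length ≤), sz_word. The test word: PTime of List.replicate k true: use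
(List.range k).map (fun _ => true) and code_congr, or PTime.map; append: PTime.append.
minL: fold with states in the list (or []): sz_mem. solve: induction on r for all types α at once
(statement: for all α with Code α and all PTime parameters); states of the fold are tables (sz_tbl).
-/

set_option autoImplicit false
set_option linter.unusedSimpArgs false

namespace Pool.Agent.Work.MP_85af13_lc

open Pool.Agent.Work.PolyTime
open Pool.Agent.Work.MP_63b90e_lc (addB shiftB)
open Pool.Agent.Work.MP_62a643_lc (leB)

section

variable {α : Type} [Code α]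

private theorem pb_nat' {n : α → ℕ} (hn : PTime n) : PB n :=
  PB.mono hn.sz_le fun a => by rw [sz_nat]; omega

private theorem ptime_ones {k : α → ℕ} (hk : PTime k) :
    PTime (fun x => List.replicate (k x) true) := by
  refine (PTime.map (f := fun _ _ => true) (PTime.range hk) (PTime.const true)).code_congr
    fun x => ?_
  rw [List.map_const', List.length_range]

private theorem papp {β : Type} [Code β] {F : α → List ℕ → List (List Bool) → List (List Bool)}
    (hF : PTime (fun y : α × List ℕ × List (List Bool) => F y.1 y.2.1 y.2.2)) {r : β → α}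
    {a : β → List ℕ} {b : β → List (List Bool)} (hr : PTime r) (ha : PTime a) (hb : PTime b) :
    PTime (fun x => F (r x) (a x) (b x)) :=
  hF.comp (f := fun x => (r x, a x, b x)) (PTime.prodMk hr (PTime.prodMk ha hb))

theorem PTime.bsearch {P : α → List Bool → Bool} {m : α → ℕ}
    (hP : PTime (fun y : α × List Bool => P y.1 y.2)) (hm : PTime m) :
    PTime (fun x => MP_85af13_lc.bsearch (P x) (m x)) := by
  unfold MP_85af13_lc.bsearch
  have hk : PTime (fun y : α × List Bool × ℕ => y.2.2) := by fun_prop
  have hd : PTime (fun y : α × List Bool × ℕ => y.2.1) := by fun_prop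
  have hw : PTime (fun y : α × List Bool × ℕ =>
      List.replicate y.2.2 true ++ false :: y.2.1) :=
    PTime.append (ptime_ones hk) (PTime.cons (PTime.const false) hd)
  have hf : PTime (fun y : α × List Bool × ℕ =>
      (!(P y.1 (List.replicate y.2.2 true ++ false :: y.2.1))) :: y.2.1) := by
    refine PTime.cons (PTime.not ?_) hd
    exact hP.comp (f := fun y : α × List Bool × ℕ =>
      (y.1, List.replicate y.2.2 true ++ false :: y.2.1)) (PTime.prodMk PTime.fst hw)
  refine PTime.foldl (f := fun y : α × List Bool × ℕ =>
      (!(P y.1 (List.replicate y.2.2 true ++ false :: y.2.1))) :: y.2.1)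
    (PTime.reverse (PTime.range hm)) (PTime.const []) hf
    (PB.add (PB.mul (PB.const 4) (pb_nat' hm)) (PB.const 1)) ?_
  intro x l' hl'
  have h1 : ∀ l' : List ℕ, (l'.foldl (fun s b => (fun y : α × List Bool × ℕ =>
      (!(P y.1 (List.replicate y.2.2 true ++ false :: y.2.1))) :: y.2.1) (x, s, b)) []).length =
      l'.length := by
    intro l'
    induction l' using List.reverseRecOn with
    | nil => rfl
    | append_singleton l b ih =>
      rw [List.foldl_append, List.length_append]
      change _ + 1 = _ + 1
      rw [ih]
  refine (sz_word _).trans ?_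
  rw [h1]
  have h2 := hl'.length_le
  rw [List.length_reverse, List.length_range] at h2
  omega

private theorem minL_state (l' : List (List Bool)) (s : List Bool) :
    l'.foldl (fun m a => bif leB a m then a else m) s = s ∨
      l'.foldl (fun m a => bif leB a m then a else m) s ∈ l' := by
  induction l' using List.reverseRecOn with
  | nil => exact Or.inl rfl
  | append_singleton l b ih =>
    rw [List.foldl_append, List.foldl_cons, List.foldl_nil]
    cases leB b (l.foldl (fun m a => bif leB a m then a else m) s) with
    | true => exact Or.inr (by simp)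
    | false =>
      rcases ih with ih | ih
      · exact Or.inl ih
      · exact Or.inr (List.mem_append_left _ ih)

theorem PTime.minL {l : α → List (List Bool)} (hl : PTime l) :
    PTime (fun x => MP_85af13_lc.minL (l x)) := by
  unfold MP_85af13_lc.minL
  have ha : PTime (fun y : α × List Bool × List Bool => y.2.2) := by fun_prop
  have hm : PTime (fun y : α × List Bool × List Bool => y.2.1) := by fun_prop
  have hf : PTime (fun y : α × List Bool × List Bool => bif leB y.2.2 y.2.1 then y.2.2 else y.2.1) :=
    PTime.cond (PTime.leB' ha hm) ha hm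
  refine PTime.foldl (f := fun y : α × List Bool × List Bool =>
    bif leB y.2.2 y.2.1 then y.2.2 else y.2.1) hl (PTime.nth hl (PTime.const 0) (PTime.const []))
    hf hl.sz_le ?_
  intro x l' hl'
  rcases minL_state l' ((l x).getD 0 []) with h | h
  · have h' : l'.foldl (fun s b => (fun y : α × List Bool × List Bool =>
      bif leB y.2.2 y.2.1 then y.2.2 else y.2.1) (x, s, b)) ((l x).getD 0 []) =
      (l x).getD 0 [] := h
    rw [h']
    by_cases h0 : 0 < (l x).length
    · rw [List.getD_eq_getElem _ _ h0]
      exact (sz_mem (List.getElem_mem h0)).le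
    · rw [List.getD_eq_default _ _ (by omega), sz_nil]
      exact sz_pos _
  · exact (sz_mem (hl'.subset h)).le

theorem PTime.updL {n w : α → ℕ} {Z : α → List (List Bool)} {s : α → ℕ} {τ : α → List Bool}
    (hn : PTime n) (hw : PTime w) (hZ : PTime Z) (hs : PTime s) (hτ : PTime τ) :
    PTime (fun x => MP_85af13_lc.updL (n x) (w x) (Z x) (s x) (τ x)) := by
  unfold MP_85af13_lc.updL
  refine PTime.tbl (g := fun x z => bif decide (z = s x) then τ x else (Z x).getD z []) hn hw ?_
  exact PTime.cond (PTime.eq PTime.snd (hs.comp PTime.fst)) (hτ.comp PTime.fst)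
    (PTime.nth (hZ.comp PTime.fst) PTime.snd (PTime.const _))

theorem PTime.quietB {I : α → Inst} {C : α → List ℕ} {Z : α → List (List Bool)} (hI : PTime I)
    (hC : PTime C) (hZ : PTime Z) :
    PTime (fun x => MP_85af13_lc.quietB (I x) (C x) (Z x)) := by
  unfold MP_85af13_lc.quietB
  refine PTime.all (p := fun x z => !(MP_85af13_lc.hotC (I x) (I x).2 (Z x) z)) hC ?_
  exact PTime.not (PTime.hotC (hI.comp PTime.fst) (PTime.snd.comp (hI.comp PTime.fst))
    (hZ.comp PTime.fst) PTime.snd)

private theorem ptime_del {C : α → List ℕ} {s : α → ℕ} (hC : PTime C) (hs : PTime s) :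
    PTime (fun x => (C x).filter fun z => !(decide (z = s x))) :=
  PTime.filter (p := fun x z => !(decide (z = s x))) hC
    (PTime.not (PTime.eq PTime.snd (hs.comp PTime.fst)))

private theorem ptime_tauL {I : α → Inst} {F : α → List ℕ → List (List Bool) → List (List Bool)}
    {w : α → ℕ} {C : α → List ℕ} {u : α → List (List Bool)} {s : α → ℕ} (hI : PTime I)
    (hF : PTime (fun y : α × List ℕ × List (List Bool) => F y.1 y.2.1 y.2.2)) (hw : PTime w)
    (hC : PTime C) (hu : PTime u) (hs : PTime s) :
    PTime (fun x => MP_85af13_lc.tauL (I x) (F x) (w x) (C x) (u x) (s x)) := by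
  unfold MP_85af13_lc.tauL
  refine PTime.bsearch (P := fun x τ => !(MP_85af13_lc.hotC (I x) (I x).2
    (F x ((C x).filter fun z => !(decide (z = s x)))
      (MP_85af13_lc.updL (I x).2.length (w x) (u x) (s x) τ)) (s x))) ?_ hw
  refine PTime.not (PTime.hotC (hI.comp PTime.fst) (PTime.snd.comp (hI.comp PTime.fst)) ?_
    (hs.comp PTime.fst))
  exact papp hF PTime.fst ((ptime_del hC hs).comp PTime.fst)
    (PTime.updL ((PTime.size hI).comp PTime.fst) (hw.comp PTime.fst) (hu.comp PTime.fst)
      (hs.comp PTime.fst) PTime.snd)

theorem PTime.candL {I : α → Inst} {F : α → List ℕ → List (List Bool) → List (List Bool)}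
    {w : α → ℕ} {C : α → List ℕ} {u : α → List (List Bool)} {s : α → ℕ} (hI : PTime I)
    (hF : PTime (fun y : α × List ℕ × List (List Bool) => F y.1 y.2.1 y.2.2)) (hw : PTime w)
    (hC : PTime C) (hu : PTime u) (hs : PTime s) :
    PTime (fun x => MP_85af13_lc.candL (I x) (F x) (w x) (C x) (u x) (s x)) := by
  unfold MP_85af13_lc.candL
  refine PTime.tbl (g := fun x z => bif memB z (C x) then
    (F x ((C x).filter fun z => !(decide (z = s x)))
      (MP_85af13_lc.updL (I x).2.length (w x) (u x) (s x)
        (MP_85af13_lc.tauL (I x) (F x) (w x) (C x) (u x) (s x)))).getD z []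
    else (u x).getD z []) (PTime.size hI) hw ?_
  refine PTime.cond (PTime.memB PTime.snd (hC.comp PTime.fst)) (PTime.nth ?_ PTime.snd
    (PTime.const _)) (PTime.nth (hu.comp PTime.fst) PTime.snd (PTime.const _))
  have h1 : PTime (fun x => F x ((C x).filter fun z => !(decide (z = s x)))
      (MP_85af13_lc.updL (I x).2.length (w x) (u x) (s x)
        (MP_85af13_lc.tauL (I x) (F x) (w x) (C x) (u x) (s x)))) :=
    papp hF PTime.id (ptime_del hC hs)
      (PTime.updL (PTime.size hI) hw hu hs (ptime_tauL hI hF hw hC hu hs))
  exact h1.comp PTime.fst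

theorem PTime.newL {I : α → Inst} {F : α → List ℕ → List (List Bool) → List (List Bool)}
    {w : α → ℕ} {C : α → List ℕ} {u : α → List (List Bool)} {v : α → ℕ} (hI : PTime I)
    (hF : PTime (fun y : α × List ℕ × List (List Bool) => F y.1 y.2.1 y.2.2)) (hw : PTime w)
    (hC : PTime C) (hu : PTime u) (hv : PTime v) :
    PTime (fun x => MP_85af13_lc.newL (I x) (F x) (w x) (C x) (u x) (v x)) := by
  unfold MP_85af13_lc.newL
  have hcand : PTime (fun y : α × ℕ =>
      MP_85af13_lc.candL (I y.1) (F y.1) (w y.1) (C y.1) (u y.1) y.2) := by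
    refine PTime.candL (F := fun y : α × ℕ => F y.1) (hI.comp PTime.fst) ?_
      (hw.comp PTime.fst) (hC.comp PTime.fst) (hu.comp PTime.fst) PTime.snd
    exact papp hF (r := fun z : (α × ℕ) × List ℕ × List (List Bool) => z.1.1)
      (a := fun z => z.2.1) (b := fun z => z.2.2) (by fun_prop) (by fun_prop) (by fun_prop)
  refine PTime.minL ?_
  refine PTime.map (f := fun x s => (MP_85af13_lc.candL (I x) (F x) (w x) (C x) (u x) s).getD
    (v x) []) ?_ ?_
  · exact PTime.filter (p := fun x s => MP_85af13_lc.quietB (I x) (C x)
      (MP_85af13_lc.candL (I x) (F x) (w x) (C x) (u x) s)) hC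
      (PTime.quietB (hI.comp PTime.fst) (hC.comp PTime.fst) hcand)
  · exact PTime.nth hcand (hv.comp PTime.fst) (PTime.const _)

theorem PTime.roundL {I : α → Inst} {F : α → List ℕ → List (List Bool) → List (List Bool)}
    {w : α → ℕ} {R : α → List ℕ} {u : α → List (List Bool)} (hI : PTime I)
    (hF : PTime (fun y : α × List ℕ × List (List Bool) => F y.1 y.2.1 y.2.2)) (hw : PTime w)
    (hR : PTime R) (hu : PTime u) :
    PTime (fun x => MP_85af13_lc.roundL (I x) (F x) (w x) (R x) (u x)) := by
  unfold MP_85af13_lc.roundL
  refine PTime.tbl (g := fun x v => bif memB v (R x) then MP_85af13_lc.newL (I x) (F x) (w x)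
    (MP_85af13_lc.compL (I x) (R x) v) (u x) v else (u x).getD v []) (PTime.size hI) hw ?_
  refine PTime.cond (PTime.memB PTime.snd (hR.comp PTime.fst)) ?_
    (PTime.nth (hu.comp PTime.fst) PTime.snd (PTime.const _))
  refine PTime.newL (F := fun y : α × ℕ => F y.1) (hI.comp PTime.fst) ?_ (hw.comp PTime.fst)
    (PTime.compL (hI.comp PTime.fst) (hR.comp PTime.fst) PTime.snd) (hu.comp PTime.fst) PTime.snd
  exact papp hF (r := fun z : (α × ℕ) × List ℕ × List (List Bool) => z.1.1)
    (a := fun z => z.2.1) (b := fun z => z.2.2) (by fun_prop) (by fun_prop) (by fun_prop)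

end

theorem PTime.solve (r : ℕ) : ∀ {α : Type} [Code α] {I : α → Inst} {B w : α → ℕ} {R : α → List ℕ}
    {t : α → List (List Bool)}, PTime I → PTime B → PTime w → PTime R → PTime t →
    PTime (fun x => MP_85af13_lc.solve (I x) (B x) r (w x) (R x) (t x)) := by
  induction r with
  | zero =>
    intro α _ I B w R t hI hB hw hR ht
    exact PTime.baseR hI hw hB hR ht
  | succ r ih =>
    intro α _ I B w R t hI hB hw hR ht
    have hw1 : PTime (fun x => w x + 1) := PTime.succ hw
    have hs : PTime (fun x => MP_85af13_lc.tbl (I x).2.length (w x + 1)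
        fun v => bif memB v (R x) then [] else (t x).getD v []) := by
      refine PTime.tbl (g := fun x v => bif memB v (R x) then [] else (t x).getD v [])
        (PTime.size hI) hw1 ?_
      exact PTime.cond (PTime.memB PTime.snd (hR.comp PTime.fst)) (PTime.const _)
        (PTime.nth (ht.comp PTime.fst) PTime.snd (PTime.const _))
    have hf : PTime (fun y : α × List (List Bool) × ℕ => MP_85af13_lc.roundL (I y.1)
        (MP_85af13_lc.solve (I y.1) (B y.1) r (w y.1 + 1)) (w y.1 + 1) (R y.1) y.2.1) := by
      refine PTime.roundL (F := fun y : α × List (List Bool) × ℕ =>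
        MP_85af13_lc.solve (I y.1) (B y.1) r (w y.1 + 1)) (hI.comp PTime.fst) ?_
        (hw1.comp PTime.fst) (hR.comp PTime.fst) (by fun_prop)
      have h1 : PTime (fun z : (α × List (List Bool) × ℕ) × List ℕ × List (List Bool) =>
          z.1.1) := by fun_prop
      exact ih (I := fun z : (α × List (List Bool) × ℕ) × List ℕ × List (List Bool) => I z.1.1)
        (B := fun z => B z.1.1) (w := fun z => w z.1.1 + 1) (R := fun z => z.2.1)
        (t := fun z => z.2.2) (hI.comp h1) (hB.comp h1) (hw1.comp h1) (by fun_prop) (by fun_prop)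
    have hPB : PB (fun x => 1 + (I x).2.length * (4 * (w x + 1) + 2)) :=
      PB.add (PB.const 1) (PB.mul (pb_nat' (PTime.size hI))
        (PB.add (PB.mul (PB.const 4) (pb_nat' hw1)) (PB.const 2)))
    refine PTime.foldl (f := fun y : α × List (List Bool) × ℕ => MP_85af13_lc.roundL (I y.1)
        (MP_85af13_lc.solve (I y.1) (B y.1) r (w y.1 + 1)) (w y.1 + 1) (R y.1) y.2.1)
      (PTime.range (PTime.size hI)) hs hf hPB ?_
    intro x l' _
    induction l' using List.reverseRecOn with
    | nil => exact sz_tbl _ _ _
    | append_singleton l b _ =>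
      rw [List.foldl_append]
      exact sz_tbl _ _ _

theorem PTime.haltR (r : ℕ) {α : Type} [Code α] {I : α → Inst} {W B : α → ℕ} (hI : PTime I)
    (hW : PTime W) (hB : PTime B) :
    PTime (fun x => MP_85af13_lc.haltR r (I x) (W x) (B x)) := by
  unfold MP_85af13_lc.haltR
  refine PTime.and (PTime.eulB hI) ?_
  have hW1 : PTime (fun x => W x + 1) := PTime.succ hW
  have hR : PTime (fun x => (List.range (I x).2.length).filter fun z => !(decide (z = 0))) :=
    PTime.filter (p := fun _ z => !(decide (z = 0))) (PTime.range (PTime.size hI))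
      (PTime.not (PTime.eq PTime.snd (PTime.const 0)))
  have ht : PTime (fun x => MP_85af13_lc.tbl (I x).2.length (W x + 1)
      fun v => bif decide (v = 0) then shiftB (W x) [true] else []) := by
    refine PTime.tbl (g := fun x v => bif decide (v = 0) then shiftB (W x) [true] else [])
      (PTime.size hI) hW1 ?_
    exact PTime.cond (PTime.eq PTime.snd (PTime.const 0))
      (PTime.shiftB' (hW.comp PTime.fst) (PTime.const _)) (PTime.const _)
  have hsol := PTime.solve r hI hB hW1 hR ht
  exact PTime.all (p := fun x v => !(MP_85af13_lc.hotC (I x) (I x).2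
    (MP_85af13_lc.solve (I x) (B x) r (W x + 1)
      ((List.range (I x).2.length).filter fun z => !(decide (z = 0)))
      (MP_85af13_lc.tbl (I x).2.length (W x + 1)
        fun v => bif decide (v = 0) then shiftB (W x) [true] else [])) v))
    (PTime.range (PTime.size hI))
    (PTime.not (PTime.hotC (hI.comp PTime.fst) (PTime.snd.comp (hI.comp PTime.fst))
      (hsol.comp PTime.fst) PTime.snd))

end Pool.Agent.Work.MP_85af13_lc
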