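import Pool.Agent.Work.MP_85af13_lc.Rank.SpecF
import Pool.Agent.Work.MP_85af13_lc.Rank.TimeB

/-!
The halting problem on Eulerian multidigraphs of bounded cycle rank modulo exit time.
-/

set_option autoImplicit false
set_option linter.unusedSimpArgs false

namespace Pool.Agent.Work.MP_85af13_lc

open Pool.Agent.Work.PolyTime
open Pool.Agent.Work.MP_63b90e_lc (addB shiftB)

theorem haltR_sound {r : ℕ} {I : Inst} {W B : ℕ} (h : haltR r I W B = true) :
    (graphOf I).Eulerian ∧ (graphOf I).Terminates (chipsOf I) := by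
  unfold haltR at h
  rw [Bool.and_eq_true, eulB_iff, List.all_eq_true] at h
  obtain ⟨hE, h⟩ := h
  refine ⟨hE, ?_⟩
  rw [(graphOf I).terminates_iff hE.2]
  set U := solve I B r (W + 1) ((List.range I.2.length).filter fun x => !(decide (x = 0)))
      (tbl I.2.length (W + 1) fun v => bif decide (v = 0) then shiftB W [true] else []) with hU
  refine ⟨fun v => (vs I.2.length U v : ℤ), fun v => ?_⟩
  have h1 := h v (List.mem_range.2 v.2)
  rw [Bool.not_eq_true', hotC_false] at h1
  have h2 : ((chipsOf I v + ∑ u, (graphOf I).m u v * vs I.2.length U u : ℕ) : ℤ) <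
      (((graphOf I).outDeg v * (vs I.2.length U v + 1) : ℕ) : ℤ) := by exact_mod_cast h1
  simp only [MultiDigraph.lap]
  push_cast at h2 ⊢
  linarith

theorem outDeg_pos {V : Type} [Fintype V] [DecidableEq V] {D : MultiDigraph V} (hE : D.Eulerian)
    {v q : V} (hv : v ≠ q) : 0 < D.outDeg v := by
  have h1 := D.cuts_of_eulerian hE {v} (Finset.singleton_nonempty v) (fun h => by
    have h2 : q ∈ ({v} : Finset V) := h ▸ Finset.mem_univ q
    exact hv (Finset.mem_singleton.1 h2).symm)
  rw [Finset.sum_singleton] at h1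
  rw [hE.2 v, MultiDigraph.inDeg]
  have h3 : ∑ u ∈ ({v} : Finset V)ᶜ, (D.m u v : ℤ) ≤ ∑ u, (D.m u v : ℤ) :=
    Finset.sum_le_sum_of_subset_of_nonneg (Finset.subset_univ _) (fun _ _ _ => by positivity)
  have h4 : (1 : ℤ) ≤ ((∑ u, D.m u v : ℕ) : ℤ) := by push_cast; linarith
  exact_mod_cast h4

theorem haltR_complete {r b B : ℕ} {I : Inst} (hE : (graphOf I).Eulerian)
    (hr : (graphOf I).Rank b r Set.univ) (hB : 2 * b * I.2.length ≤ B)
    (hT : (graphOf I).Terminates (chipsOf I)) : haltR r I (5 * sz I + 2) B = true := by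
  unfold haltR
  rw [Bool.and_eq_true, eulB_iff, List.all_eq_true]
  refine ⟨hE, ?_⟩
  intro x hx
  have hx' : x < I.2.length := List.mem_range.1 hx
  set W := 5 * sz I + 2 with hW
  have h0 : 0 < I.2.length := by omega
  let q : Fin I.2.length := ⟨0, h0⟩
  obtain ⟨z, ⟨hzq, hzb, hzs⟩, huniq, hup, hlow, hterm⟩ :=
    (graphOf I).rep_main hE (chipsOf I) q ((2 : ℤ) ^ W)
  have hcard : Fintype.card (Fin I.2.length) = I.2.length := Fintype.card_fin _
  have hz0 : ∀ v, 0 ≤ z v := by
    intro v
    have h1 := hlow v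
    have h2 := deg_bound I
    rw [hcard] at h1
    have h3 : ((I.2.length * ∑ u, (graphOf I).outDeg u : ℕ) : ℤ) < 2 ^ W := by
      exact_mod_cast h2
    push_cast at h1 h3
    linarith
  have hz1 : ∀ v, (z v).toNat ≤ 2 ^ (W + 1) := by
    intro v
    have h1 := hup v
    have h2 := chips_bound I
    rw [hcard] at h1
    have h3 : ((I.2.length * ∑ u, chipsOf I u : ℕ) : ℤ) < 2 ^ W := by exact_mod_cast h2
    have h4 : z v ≤ 2 ^ (W + 1) := by
      have h5 : (2 : ℤ) ^ (W + 1) = 2 ^ W + 2 ^ W := by rw [pow_succ]; ring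
      rw [h5]
      push_cast at h1 h3
      linarith
    have h5 := hz0 v
    zify
    rw [Int.toNat_of_nonneg h5]
    exact h4
  have hquiet : ∀ v, ¬ (graphOf I).Hot (chipsOf I) z v →
      chipsOf I v + ∑ u, (graphOf I).m u v * (z u).toNat <
        (graphOf I).outDeg v * ((z v).toNat + 1) := by
    intro v hv
    have h1 := not_le.1 hv
    simp only [MultiDigraph.lap] at h1
    have h2 : ∀ u, ((z u).toNat : ℤ) = z u := fun u => Int.toNat_of_nonneg (hz0 u)
    have h3 : ((chipsOf I v + ∑ u, (graphOf I).m u v * (z u).toNat : ℕ) : ℤ) <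
        (((graphOf I).outDeg v * ((z v).toNat + 1) : ℕ) : ℤ) := by
      push_cast
      simp only [h2]
      linarith
    exact_mod_cast h3
  have hz : (graphOf I).Quiet (chipsOf I) {q}ᶜ fun v => (z v).toNat :=
    fun v hv => hquiet v (hzs v (by simpa using hv))
  set R := (List.range I.2.length).filter fun x => !(decide (x = 0)) with hRdef
  set t := tbl I.2.length (W + 1) fun v => bif decide (v = 0) then shiftB W [true] else [] with ht
  have hR : stx I.2.length R = {q}ᶜ := by
    ext v
    simp only [stx, Set.mem_ofPred_eq, hRdef, List.mem_filter, List.mem_range, v.2, true_and,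
      Bool.not_eq_true', decide_eq_false_iff_not, Set.mem_compl_iff, Set.mem_singleton_iff,
      Fin.ext_iff, q]
  have hchips : ∀ v, chipsOf I v < 2 ^ (W + 1) := by
    intro v
    refine lt_of_le_of_lt (entry_le I.2 v) (Nat.pow_lt_pow_right (by norm_num) ?_)
    have := sz_snd_le I
    omega
  have htlt : ∀ v, vs I.2.length t v < 2 ^ (W + 1) := fun v => vs_tbl_lt _ _ _ _
  have hspec := solve_spec hE.2 hz hz1 (fun v hv => outDeg_pos hE hv) (b := b) (B := B) hB r
    (W + 1) R t le_rfl hchips (by rw [hR]; simp) ((graphOf I).rank_mono r (Set.subset_univ _) hr) htlt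
  set U := solve I B r (W + 1) R t with hU
  rw [hR] at hspec
  rw [Bool.not_eq_true']
  refine (hotC_false I I.2 U ⟨x, hx'⟩).2 ?_
  have htq : vs I.2.length t q = 2 ^ W := by
    rw [ht, vs_tbl]
    simp only [q, decide_true, cond_true, binVal_shiftB, binVal, Bool.toNat_true, mul_zero,
      add_zero, mul_one]
    exact Nat.mod_eq_of_lt (Nat.pow_lt_pow_right (by norm_num) (Nat.lt_succ_self _))
  have hzqn : (z q).toNat = 2 ^ W := by
    rw [hzq]
    have : ((2 : ℤ) ^ W) = ((2 ^ W : ℕ) : ℤ) := by push_cast; rfl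
    rw [this, Int.toNat_natCast]
  by_cases hxq : (⟨x, hx'⟩ : Fin I.2.length) = q
  · rw [hxq]
    have h1 : ∀ v, vs I.2.length U v ≤ (z v).toNat := by
      refine hspec.2.2 _ (fun v hv => ?_) hz
      have hvq : v = q := by simpa using hv
      rw [hvq, htq, hzqn]
    have h2 : vs I.2.length U q = 2 ^ W := by
      rw [hspec.1 q (by simp), htq]
    have h3 := hquiet q (hterm.1 hT)
    rw [hzqn] at h3
    show chipsOf I q + _ < _
    rw [h2]
    exact lt_of_le_of_lt (Nat.add_le_add_left ((graphOf I).inflow_mono h1) _) h3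
  · exact hspec.2.1 ⟨x, hx'⟩ hxq

/-- The test on words. -/
noncomputable def testR (r : ℕ) (p : Polynomial ℕ) (w : List Bool) : Bool :=
  ((parseW Inst w).bind fun I => some (haltR r I (5 * w.length + 2)
    (2 * p.eval w.length * w.length))).getD false

theorem PTime.testR (r : ℕ) (p : Polynomial ℕ) : PTime (MP_85af13_lc.testR r p) := by
  unfold MP_85af13_lc.testR
  refine PTime.parseTest (β := Inst) (w := fun w : List Bool => w) PTime.id
    (t := fun w I => MP_85af13_lc.haltR r I (5 * w.length + 2) (2 * p.eval w.length * w.length)) ?_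
  have hl : PTime (fun y : List Bool × Inst => y.1.length) := PTime.length PTime.fst
  exact PTime.haltR r PTime.snd (PTime.natAdd (PTime.natMul (PTime.const _) hl) (PTime.const _))
    (PTime.natMul (PTime.natMul (PTime.const _) (PTime.polyEval p hl)) hl)

theorem rank_main (r : ℕ) (p : Polynomial ℕ) : ∃ f : List Bool → List Bool,
    PolyTimeComputable f ∧ (∀ w, f w = [true] → w ∈ haltingEulerian) ∧
      ∀ I : Inst, (graphOf I).Eulerian →
        (graphOf I).Rank (p.eval (code I).ser.length) r Set.univ →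
        (f (code I).ser = [true] ↔ (graphOf I).Terminates (chipsOf I)) := by
  have hsound : ∀ w, testR r p w = true → w ∈ haltingEulerian := by
    intro w hw
    unfold testR at hw
    rw [parseTest_iff] at hw
    obtain ⟨I, rfl, hI⟩ := hw
    exact (haltingEulerian_mem I).2 (haltR_sound hI)
  refine ⟨fun w => [testR r p w], polyTimeComputable_of_PTime_word
    (PTime.cons (PTime.testR r p) (PTime.const _)), fun w hw => hsound w (by simpa using hw), ?_⟩
  intro I hE hr
  constructor
  · intro h
    exact ((haltingEulerian_mem I).1 (hsound _ (by simpa using h))).2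
  · intro hT
    have hs : (code I).ser.length = sz I := rfl
    have h1 : testR r p (code I).ser = true := by
      unfold testR
      rw [parseTest_iff]
      refine ⟨I, rfl, ?_⟩
      rw [hs]
      refine haltR_complete (b := p.eval (sz I)) hE (by rw [← hs]; exact hr) ?_ hT
      exact Nat.mul_le_mul_left _ (card_lt I).le
    show [testR r p (code I).ser] = [true]
    rw [h1]

end Pool.Agent.Work.MP_85af13_lc
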