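import Pool.Agent.Work.MP_85af13_lc.Rank.Easy

/-!
Recomputing all strong components in rounds (MODULE Rounds). Mathlib-like, no lists.

Let rho v be the number of w in R with Reach R w v (Finset.univ.filter, classical). Claim: after i
rounds the state a satisfies a = t off R, a ≤ u, and a v = u v for all v in R with rho v ≤ i.
Invariant a ≤ u: for v in R, step a v = x v with Lst y (comp R v) a x; Lst y (comp R v) u u by
Lst.restrict; Lst.mono gives x v ≤ u v.
Exactness: let v in R, rho v ≤ i + 1, C = comp R v. For w not in C with an edge into c in C: either w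
is not in R, then a w = t w = u w; or w in R, then Reach R w v (edge w c, and c reaches v), and all
ancestors of w are ancestors of v, while v is an ancestor of v but not of w (otherwise w would be in C);
so rho w < rho v, rho w ≤ i and a w = u w. Lst.local applied to Lst y C u u and Lst y C a x (in this
direction) gives u v ≤ x v for v in C (it needs u w ≤ a w for those w), so x v = u v.
rho v ≤ card V (Finset.card_le_univ), so card V rounds suffice. Iteration: Function.iterate_succ_apply'.
-/

set_option autoImplicit false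
set_option linter.unusedSectionVars false

namespace Pool.Agent.Work.MP_85af13_lc

namespace MultiDigraph

variable {V : Type} [Fintype V] [DecidableEq V] (D : MultiDigraph V)

theorem rounds_exact {y : V → ℕ} {R : Set V} {t u : V → ℕ} (h : D.Lst y R t u)
    (step : (V → ℕ) → (V → ℕ))
    (hstep : ∀ a : V → ℕ, (∀ v, v ∉ R → a v = t v) → (∀ v, a v ≤ u v) →
      (∀ v, v ∉ R → step a v = t v) ∧
        ∀ v ∈ R, ∃ x, D.Lst y (D.comp R v) a x ∧ step a v = x v)
    (a₀ : V → ℕ) (h0 : ∀ v, v ∉ R → a₀ v = t v) (h1 : ∀ v, a₀ v ≤ u v) :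
    step^[Fintype.card V] a₀ = u := by
  classical
  obtain ⟨anc, hanc⟩ : ∃ anc : V → Finset V, ∀ v w, w ∈ anc v ↔ w ∈ R ∧ D.Reach R w v :=
    ⟨fun v => Finset.univ.filter (fun w => w ∈ R ∧ D.Reach R w v), fun v w => by simp⟩
  have hself : ∀ v ∈ R, v ∈ anc v := fun v hv => (hanc v v).2 ⟨hv, Relation.ReflTransGen.refl⟩
  have key : ∀ i : ℕ, (∀ v, v ∉ R → step^[i] a₀ v = t v) ∧ (∀ v, step^[i] a₀ v ≤ u v) ∧
      ∀ v ∈ R, (anc v).card ≤ i → step^[i] a₀ v = u v := by
    intro i
    induction i with
    | zero =>
      refine ⟨h0, h1, fun v hv hc => ?_⟩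
      have h2 : 0 < (anc v).card := Finset.card_pos.2 ⟨v, hself v hv⟩
      omega
    | succ i ih =>
      obtain ⟨i1, i2, i3⟩ := ih
      obtain ⟨s1, s2⟩ := hstep (step^[i] a₀) i1 i2
      have hle : ∀ v ∈ R, ∀ x, D.Lst y (D.comp R v) (step^[i] a₀) x → ∀ w, x w ≤ u w :=
        fun v _ x hx w => hx.mono D (h.restrict D (D.comp_sub R v)) (fun w _ => i2 w) w
      rw [Function.iterate_succ_apply']
      refine ⟨s1, fun v => ?_, fun v hv hc => ?_⟩
      · by_cases hv : v ∈ R
        · obtain ⟨x, hx, hxv⟩ := s2 v hv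
          rw [hxv]
          exact hle v hv x hx v
        · rw [s1 v hv, h.1 v hv]
      · obtain ⟨x, hx, hxv⟩ := s2 v hv
        rw [hxv]
        refine le_antisymm (hle v hv x hx v) ?_
        refine (h.restrict D (D.comp_sub R v)).local D hx ?_ v (D.mem_comp hv)
        rintro w hw ⟨c, hc1, hc2⟩
        by_cases hwR : w ∈ R
        · have hwc : D.Reach R w c := Relation.ReflTransGen.single ⟨hwR, hc1.1, hc2⟩
          have hwv : D.Reach R w v := hwc.trans hc1.2.2
          have hnot : ¬ D.Reach R v w := fun h2 => hw ⟨hwR, h2, hwv⟩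
          have hss : anc w ⊂ anc v := by
            rw [Finset.ssubset_iff_of_subset]
            · exact ⟨v, hself v hv, fun h3 => hnot ((hanc w v).1 h3).2⟩
            · intro z hz
              obtain ⟨hz1, hz2⟩ := (hanc w z).1 hz
              exact (hanc v z).2 ⟨hz1, Relation.ReflTransGen.trans hz2 hwv⟩
          have hlt := Finset.card_lt_card hss
          exact (i3 w hwR (by omega)).ge
        · rw [i1 w hwR, h.1 w hwR]
  obtain ⟨k1, k2, k3⟩ := key (Fintype.card V)
  funext v
  by_cases hv : v ∈ R
  · exact k3 v hv (Finset.card_le_univ _)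
  · rw [k1 v hv, h.1 v hv]

end MultiDigraph

end Pool.Agent.Work.MP_85af13_lc
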