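import Pool.Agent.Work.MP_85af13_lc.UP
import Pool.Agent.Work.MP_85af13_lc.Rank.Alg

/-!
Values of tables, the test for active vertices.
-/

set_option autoImplicit false
set_option linter.unusedSimpArgs false

namespace Pool.Agent.Work.MP_85af13_lc

open Pool.Agent.Work.PolyTime
open Pool.Agent.Work.MP_63b90e_lc (addB shiftB)
open Pool.Agent.Work.MP_62a643_lc (leB)

theorem tbl_get (n w : ℕ) (g : ℕ → List Bool) {v : ℕ} (hv : v < n) :
    (tbl n w g).getD v [] = (g v).take w := by
  unfold tbl
  rw [List.getD_eq_getElem _ _ (by simpa using hv)]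
  simp

theorem binVal_take (l : List Bool) (w : ℕ) : binVal (l.take w) = binVal l % 2 ^ w := by
  induction l generalizing w with
  | nil => simp [binVal]
  | cons b l ih =>
    cases w with
    | zero => simp [binVal, Nat.mod_one]
    | succ w =>
      have h1 : (b.toNat + 2 * binVal l) / 2 = binVal l := by
        cases b
        · simp
        · simp only [Bool.toNat_true]; omega
      have h2 : (b.toNat + 2 * binVal l) % 2 = b.toNat := by
        cases b
        · simp
        · simp only [Bool.toNat_true]; omega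
      rw [List.take_succ_cons, binVal, ih, binVal, pow_succ, mul_comm (2 ^ w) 2, Nat.mod_mul, h1,
        h2]

theorem binVal_take_of_lt {l : List Bool} {w : ℕ} (h : binVal l < 2 ^ w) :
    binVal (l.take w) = binVal l := by
  rw [binVal_take, Nat.mod_eq_of_lt h]

theorem binVal_drop (l : List Bool) (j : ℕ) : binVal (l.drop j) = binVal l / 2 ^ j := by
  induction j generalizing l with
  | zero => simp
  | succ j ih =>
    cases l with
    | nil => simp [binVal]
    | cons b l =>
      rw [List.drop_succ_cons, ih, binVal, pow_succ, mul_comm (2 ^ j) 2, ← Nat.div_div_eq_div_mul]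
      congr 1
      cases b <;> simp
      omega

theorem vs_tbl (n w : ℕ) (g : ℕ → List Bool) (v : Fin n) :
    vs n (tbl n w g) v = binVal (g v) % 2 ^ w := by
  rw [vs, tbl_get n w g v.2, binVal_take]

theorem vs_tbl_lt (n w : ℕ) (g : ℕ → List Bool) (v : Fin n) :
    vs n (tbl n w g) v < 2 ^ w := by
  rw [vs_tbl]
  exact Nat.mod_lt _ (by positivity)

theorem vs_tbl_of_lt {n w : ℕ} {g : ℕ → List Bool} {v : Fin n} (h : binVal (g v) < 2 ^ w) :
    vs n (tbl n w g) v = binVal (g v) := by
  rw [vs_tbl, Nat.mod_eq_of_lt h]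

theorem mem_stx {n : ℕ} {R : List ℕ} {v : Fin n} : v ∈ stx n R ↔ memB (v : ℕ) R = true := by
  rw [memB_iff]; rfl

theorem hotC_iff (I : Inst) (Y Z : List (List Bool)) (v : Fin I.2.length) :
    hotC I Y Z v = true ↔ (graphOf I).outDeg v * (vs I.2.length Z v + 1) ≤
      vs I.2.length Y v + ∑ u, (graphOf I).m u v * vs I.2.length Z u := by
  unfold hotC
  rw [leB_iff', binVal_mulB, binVal_addB, binVal_addB, binVal_degL, binVal_sumL, List.map_map,
    sum_range_fin]
  have h1 : ∀ u : Fin I.2.length, (binVal ∘ fun u => mulB (mlB I u v) (Z.getD u [])) (u : ℕ) =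
      (graphOf I).m u v * vs I.2.length Z u := by
    intro u
    simp only [Function.comp, binVal_mulB, binVal_mlB]
    rfl
  rw [Finset.sum_congr rfl fun u _ => h1 u]
  rfl

theorem chipsOf_eq (I : Inst) : chipsOf I = vs I.2.length I.2 := rfl

/-- inactive in terms of scripts -/
theorem hotC_false (I : Inst) (Y Z : List (List Bool)) (v : Fin I.2.length) :
    hotC I Y Z v = false ↔ vs I.2.length Y v + ∑ u, (graphOf I).m u v * vs I.2.length Z u <
      (graphOf I).outDeg v * (vs I.2.length Z v + 1) := by
  rw [← Bool.not_eq_true, hotC_iff, not_le]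

theorem quietB_iff (I : Inst) (C : List ℕ) (Z : List (List Bool))
    (hC : ∀ x ∈ C, x < I.2.length) : quietB I C Z = true ↔
      (graphOf I).Quiet (chipsOf I) (stx I.2.length C) (vs I.2.length Z) := by
  unfold quietB
  rw [List.all_eq_true]
  constructor
  · intro h v hv
    have h1 := h v hv
    rw [Bool.not_eq_true', hotC_false] at h1
    exact h1
  · intro h x hx
    rw [Bool.not_eq_true']
    exact (hotC_false I I.2 Z ⟨x, hC x hx⟩).2 (h ⟨x, hC x hx⟩ hx)

end Pool.Agent.Work.MP_85af13_lc
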