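import Pool.Agent.Work.MP_85af13_lc.Rank.SpecA

/-!
Correctness of the base case.
-/

set_option autoImplicit false
set_option linter.unusedSimpArgs false
set_option linter.unusedSectionVars false

namespace Pool.Agent.Work.MP_85af13_lc

open Pool.Agent.Work.PolyTime
open Pool.Agent.Work.MP_63b90e_lc (addB shiftB)

namespace MultiDigraph

variable {V : Type} [Fintype V] [DecidableEq V] (D : MultiDigraph V)

theorem fireAll_le {y : V → ℕ} {R : Set V} [DecidablePred (· ∈ R)] {t u : V → ℕ}
    (h : D.Lst y R t u) {a : V → ℕ} (h2 : ∀ v, a v ≤ u v) (v : V) :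
    D.fireAll y R a v ≤ u v := by
  unfold fireAll
  split_ifs with hh
  · by_contra hcon
    have h5 : a v = u v := by have := h2 v; omega
    have h6 := h.2.1 v hh.1
    have h7 : y v + ∑ w, D.m w v * a w ≤ y v + ∑ w, D.m w v * u w :=
      Nat.add_le_add_left (D.inflow_mono h2) _
    have h8 := hh.2
    rw [h5] at h8
    omega
  · exact h2 v

theorem quiet_half {y : V → ℕ} {R : Set V} {u : V → ℕ} (h : D.Quiet y R u) :
    D.Quiet (fun v => y v / 2) R (fun v => u v / 2) := by
  intro v hv
  have h2 := h v hv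
  have h3 : 2 * (∑ w, D.m w v * (u w / 2)) ≤ ∑ w, D.m w v * u w := by
    rw [Finset.mul_sum]
    refine Finset.sum_le_sum fun w _ => ?_
    calc 2 * (D.m w v * (u w / 2)) = D.m w v * (2 * (u w / 2)) := by ring
      _ ≤ D.m w v * u w := Nat.mul_le_mul_left _ (Nat.mul_div_le _ _)
  have h4 : D.outDeg v * (u v + 1) ≤ D.outDeg v * (2 * (u v / 2 + 1)) :=
    Nat.mul_le_mul_left _ (by omega)
  have h5 : D.outDeg v * (2 * (u v / 2 + 1)) = 2 * (D.outDeg v * (u v / 2 + 1)) := by ring
  show y v / 2 + ∑ w, D.m w v * (u w / 2) < D.outDeg v * (u v / 2 + 1)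
  omega

/-- least scripts for the chips and frozen values divided by powers of two -/
theorem lst_pow {y : V → ℕ} {R : Set V} {t u : V → ℕ} (h : D.Lst y R t u) (j : ℕ) :
    ∃ a, D.Lst (fun v => y v / 2 ^ j) R (fun v => t v / 2 ^ j) a ∧ ∀ v, a v ≤ u v := by
  induction j with
  | zero => exact ⟨u, by simpa using h, fun v => le_rfl⟩
  | succ j ih =>
    obtain ⟨a, ha, hau⟩ := ih
    have e1 : (fun v => y v / 2 ^ (j + 1)) = fun v => (y v / 2 ^ j) / 2 := by
      funext v; rw [Nat.div_div_eq_div_mul, pow_succ]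
    have e2 : (fun v => t v / 2 ^ (j + 1)) = fun v => (t v / 2 ^ j) / 2 := by
      funext v; rw [Nat.div_div_eq_div_mul, pow_succ]
    have hq := D.quiet_half ha.2.1
    obtain ⟨a', ha'⟩ := D.lst_exists (y := fun v => (y v / 2 ^ j) / 2) (R := R)
      (t := fun v => (t v / 2 ^ j) / 2) ⟨fun v => a v / 2, fun v hv => by
        show t v / 2 ^ j / 2 ≤ a v / 2
        rw [ha.1 v hv], hq⟩
    rw [e1, e2]
    refine ⟨a', ha', fun v => ?_⟩
    have h1 := ha.half D ha' v
    have h2 := hau v
    omega

end MultiDigraph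

theorem vs_fireR (I : Inst) (w : ℕ) (R : List ℕ) (Y Z : List (List Bool))
    [DecidablePred (· ∈ stx I.2.length R)] (v : Fin I.2.length) :
    vs I.2.length (fireR I w R Y Z) v = (graphOf I).fireAll (vs I.2.length Y)
      (stx I.2.length R) (vs I.2.length Z) v % 2 ^ w := by
  unfold fireR
  rw [vs_tbl]
  congr 1
  unfold MultiDigraph.fireAll
  by_cases h1 : v ∈ stx I.2.length R
  · have h2 : memB (v : ℕ) R = true := mem_stx.1 h1
    by_cases h3 : hotC I Y Z v = true
    · have h4 := (hotC_iff I Y Z v).1 h3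
      rw [h2, h3, if_pos ⟨h1, h4⟩]
      simp only [Bool.and_self, cond_true, binVal_addB, binVal, Bool.toNat_true, mul_zero,
        add_zero]
      rfl
    · have h4 : ¬ ((graphOf I).outDeg v * (vs I.2.length Z v + 1) ≤
          vs I.2.length Y v + ∑ u, (graphOf I).m u v * vs I.2.length Z u) :=
        fun h => h3 ((hotC_iff I Y Z v).2 h)
      rw [Bool.not_eq_true] at h3
      rw [h2, h3, if_neg fun h => h4 h.2]
      rfl
  · have h2 : memB (v : ℕ) R = false := by
      rw [← Bool.not_eq_true, ← mem_stx]; exact h1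
    rw [h2, if_neg fun h => h1 h.1]
    rfl

theorem vs_roundsR {I : Inst} {w : ℕ} {R : List ℕ} {Y : List (List Bool)}
    [DecidablePred (· ∈ stx I.2.length R)] {t u : Fin I.2.length → ℕ}
    (h : (graphOf I).Lst (vs I.2.length Y) (stx I.2.length R) t u) (hu : ∀ v, u v < 2 ^ w)
    (Z : List (List Bool)) (hZ : ∀ v, vs I.2.length Z v ≤ u v) (B : ℕ) :
    vs I.2.length (roundsR I w B R Y Z) = ((graphOf I).fireAll (vs I.2.length Y)
      (stx I.2.length R))^[B] (vs I.2.length Z) ∧
      ∀ v, vs I.2.length (roundsR I w B R Y Z) v ≤ u v := by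
  induction B with
  | zero => exact ⟨rfl, hZ⟩
  | succ B ih =>
    obtain ⟨ih1, ih2⟩ := ih
    have h0 : roundsR I w (B + 1) R Y Z = fireR I w R Y (roundsR I w B R Y Z) := by
      simp only [roundsR, List.range_succ, List.foldl_append, List.foldl_cons, List.foldl_nil]
    have h1 : vs I.2.length (roundsR I w (B + 1) R Y Z) = (graphOf I).fireAll (vs I.2.length Y)
        (stx I.2.length R) (vs I.2.length (roundsR I w B R Y Z)) := by
      funext v
      rw [h0, vs_fireR]
      exact Nat.mod_eq_of_lt (((graphOf I).fireAll_le h ih2 v).trans_lt (hu v))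
    refine ⟨?_, fun v => ?_⟩
    · rw [h1, Function.iterate_succ_apply', ih1]
    · rw [h1]
      exact (graphOf I).fireAll_le h ih2 v

theorem getD_map_drop (Y : List (List Bool)) (j v : ℕ) :
    (Y.map fun l => l.drop j).getD v [] = (Y.getD v []).drop j := by
  by_cases hv : v < Y.length
  · rw [List.getD_eq_getElem _ _ (by simpa using hv), List.getD_eq_getElem _ _ hv]
    simp
  · rw [List.getD_eq_default _ _ (by simpa using hv), List.getD_eq_default _ _ (by omega)]
    simp

theorem vs_dblR {I : Inst} (hE : ∀ v, (graphOf I).outDeg v = (graphOf I).inDeg v) {b B w j : ℕ}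
    {R : List ℕ} {t : List (List Bool)} {u a : Fin I.2.length → ℕ}
    (hR : (graphOf I).Exit b (stx I.2.length R)) (hB : 2 * b * I.2.length ≤ B)
    (h : (graphOf I).Lst (fun v => chipsOf I v / 2 ^ j) (stx I.2.length R)
      (fun v => vs I.2.length t v / 2 ^ j) u)
    (ha : (graphOf I).Lst (fun v => chipsOf I v / 2 ^ (j + 1)) (stx I.2.length R)
      (fun v => vs I.2.length t v / 2 ^ (j + 1)) a)
    (hu : ∀ v, u v < 2 ^ w) (Z : List (List Bool))
    (hZ : ∀ v ∈ stx I.2.length R, vs I.2.length Z v = a v) :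
    vs I.2.length (dblR I w B R t Z j) = u := by
  classical
  have e0 : vs I.2.length (I.2.map fun l => l.drop j) = fun v => chipsOf I v / 2 ^ j := by
    funext v
    rw [vs, getD_map_drop, binVal_drop]
    rfl
  have e1 : (fun v => chipsOf I v / 2 ^ (j + 1)) = fun v => (chipsOf I v / 2 ^ j) / 2 := by
    funext v; rw [Nat.div_div_eq_div_mul, pow_succ]
  have e2 : (fun v => vs I.2.length t v / 2 ^ (j + 1)) =
      fun v => (vs I.2.length t v / 2 ^ j) / 2 := by
    funext v; rw [Nat.div_div_eq_div_mul, pow_succ]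
  rw [e1, e2] at ha
  set Z' := tbl I.2.length w fun v => bif memB v R then false :: Z.getD v []
    else (t.getD v []).drop j with hZ'
  have h1 : vs I.2.length Z' = fun v => if v ∈ stx I.2.length R then 2 * a v
      else vs I.2.length t v / 2 ^ j := by
    funext v
    rw [hZ', vs_tbl]
    by_cases hv : v ∈ stx I.2.length R
    · have h2 : memB (v : ℕ) R = true := mem_stx.1 hv
      rw [h2, cond_true, if_pos hv, binVal]
      have h3 := hZ v hv
      unfold vs at h3
      rw [h3]
      have h4 := h.half (graphOf I) ha v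
      simp only [Bool.toNat_false, zero_add]
      exact Nat.mod_eq_of_lt (h4.trans_lt (hu v))
    · have h2 : memB (v : ℕ) R = false := by
        rw [← Bool.not_eq_true, ← mem_stx]; exact hv
      rw [h2, cond_false, if_neg hv, binVal_drop]
      have h3 := h.1 v hv
      have h4 := hu v
      rw [h3] at h4
      exact Nat.mod_eq_of_lt h4
  have h2 := (graphOf I).double_rounds hE hR h ha B (by rwa [Fintype.card_fin])
  unfold dblR
  have h3 := (vs_roundsR (I := I) (w := w) (R := R) (Y := I.2.map fun l => l.drop j)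
    (t := fun v => vs I.2.length t v / 2 ^ j) (u := u) (by rw [e0]; exact h) hu Z' (by
      intro v
      rw [h1]
      show (if v ∈ stx I.2.length R then 2 * a v else vs I.2.length t v / 2 ^ j) ≤ u v
      split_ifs with hv
      · exact h.half (graphOf I) ha v
      · exact (h.1 v hv).ge) B).1
  rw [h3, h1, e0]
  exact h2

theorem baseR_spec {I : Inst} (hE : ∀ v, (graphOf I).outDeg v = (graphOf I).inDeg v) {b B w : ℕ}
    {R : List ℕ} {t : List (List Bool)} {u : Fin I.2.length → ℕ}
    (hR : (graphOf I).Exit b (stx I.2.length R)) (hB : 2 * b * I.2.length ≤ B)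
    (hd : ∀ v ∈ stx I.2.length R, 0 < (graphOf I).outDeg v)
    (hc : ∀ v, chipsOf I v < 2 ^ w) (ht : ∀ v, vs I.2.length t v < 2 ^ w)
    (h : (graphOf I).Lst (chipsOf I) (stx I.2.length R) (vs I.2.length t) u)
    (hu : ∀ v, u v < 2 ^ (w + 1)) : vs I.2.length (baseR I w B R t) = u := by
  have key : ∀ (j : ℕ) (Z : List (List Bool)) (a : Fin I.2.length → ℕ),
      (graphOf I).Lst (fun v => chipsOf I v / 2 ^ j) (stx I.2.length R)
        (fun v => vs I.2.length t v / 2 ^ j) a → vs I.2.length Z = a →
      vs I.2.length ((List.range j).reverse.foldl (fun Z j => dblR I (w + 1) B R t Z j) Z) =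
        u := by
    intro j
    induction j with
    | zero =>
      intro Z a ha hZ
      simp only [pow_zero, Nat.div_one] at ha
      rw [List.range_zero, List.reverse_nil, List.foldl_nil, hZ]
      exact ha.unique (graphOf I) h
    | succ j ih =>
      intro Z a ha hZ
      rw [List.range_succ, List.reverse_append, List.reverse_singleton, List.singleton_append,
        List.foldl_cons]
      obtain ⟨a', ha', hau⟩ := (graphOf I).lst_pow h j
      refine ih _ a' ha' ?_
      exact vs_dblR hE hR hB ha' ha (fun v => (hau v).trans_lt (hu v)) Z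
        (fun v _ => congrFun hZ v)
  unfold baseR
  refine key w [] (fun _ => 0) ⟨fun v _ => ?_, fun v hv => ?_, fun _ _ _ v => Nat.zero_le _⟩ ?_
  · exact (Nat.div_eq_of_lt (ht v)).symm
  · show chipsOf I v / 2 ^ w + ∑ x, (graphOf I).m x v * 0 < (graphOf I).outDeg v * (0 + 1)
    rw [Nat.div_eq_of_lt (hc v)]
    simpa using hd v hv
  · funext v
    simp [vs, binVal]

end Pool.Agent.Work.MP_85af13_lc
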