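import Pool.Agent.Work.MP_85af13_lc.Rank.SpecA

/-!
Correctness of the computation of strong components.
-/

set_option autoImplicit false
set_option linter.unusedSimpArgs false

namespace Pool.Agent.Work.MP_85af13_lc

open Pool.Agent.Work.PolyTime
open Pool.Agent.Work.MP_62a643_lc (leB)

theorem edge_iff (I : Inst) (u v : Fin I.2.length) :
    leB [true] (mlB I u v) = true ↔ 0 < (graphOf I).m u v := by
  rw [one_leB, binVal_mlB]
  rfl

theorem fwL_iff (I : Inst) (R : List ℕ) (v : Fin I.2.length) (hv : v ∈ stx I.2.length R)
    (x : Fin I.2.length) : (x : ℕ) ∈ fwL I R v ↔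
      x ∈ stx I.2.length R ∧ (graphOf I).Reach (stx I.2.length R) v x := by
  constructor
  · have key : ∀ (k : ℕ) (x : Fin I.2.length), (x : ℕ) ∈ growN I.2.length
        (fun S x => memB x R && (decide (x = (v : ℕ)) ||
          S.any fun u => leB [true] (mlB I u x))) k →
        x ∈ stx I.2.length R ∧ (graphOf I).Reach (stx I.2.length R) v x := by
      intro k
      induction k with
      | zero => intro x hx; simp [growN] at hx
      | succ k ih =>
        intro x hx
        rcases (mem_growStep.1 hx).2 with hx | hx
        · exact ih x hx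
        · simp only [Bool.and_eq_true, Bool.or_eq_true, decide_eq_true_eq, List.any_eq_true] at hx
          obtain ⟨hxR, hx⟩ := hx
          have hxR' : x ∈ stx I.2.length R := mem_stx.2 hxR
          refine ⟨hxR', ?_⟩
          rcases hx with hx | ⟨u, hu, hux⟩
          · have : x = v := Fin.ext hx
            rw [this]
            exact Relation.ReflTransGen.refl
          · have h1 := ih ⟨u, growN_lt hu⟩ hu
            exact h1.2.tail ⟨h1.1, hxR', (edge_iff I ⟨u, growN_lt hu⟩ x).1 hux⟩
    exact key _ x
  · rintro ⟨-, hx⟩
    unfold MultiDigraph.Reach at hx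
    induction hx with
    | refl =>
      refine growN_closed v.2 ?_
      simp only [Bool.and_eq_true, Bool.or_eq_true, decide_eq_true_eq]
      exact ⟨mem_stx.1 hv, Or.inl trivial⟩
    | tail _ hstep ih =>
      rename_i a c _
      refine growN_closed c.2 ?_
      simp only [Bool.and_eq_true, Bool.or_eq_true, decide_eq_true_eq, List.any_eq_true]
      exact ⟨mem_stx.1 hstep.2.1, Or.inr ⟨a, ih, (edge_iff I a c).2 hstep.2.2⟩⟩

theorem bwL_iff (I : Inst) (R : List ℕ) (v : Fin I.2.length) (hv : v ∈ stx I.2.length R)
    (x : Fin I.2.length) : (x : ℕ) ∈ bwL I R v ↔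
      x ∈ stx I.2.length R ∧ (graphOf I).Reach (stx I.2.length R) x v := by
  constructor
  · have key : ∀ (k : ℕ) (x : Fin I.2.length), (x : ℕ) ∈ growN I.2.length
        (fun S x => memB x R && (decide (x = (v : ℕ)) ||
          S.any fun u => leB [true] (mlB I x u))) k →
        x ∈ stx I.2.length R ∧ (graphOf I).Reach (stx I.2.length R) x v := by
      intro k
      induction k with
      | zero => intro x hx; simp [growN] at hx
      | succ k ih =>
        intro x hx
        rcases (mem_growStep.1 hx).2 with hx | hx
        · exact ih x hx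
        · simp only [Bool.and_eq_true, Bool.or_eq_true, decide_eq_true_eq, List.any_eq_true] at hx
          obtain ⟨hxR, hx⟩ := hx
          have hxR' : x ∈ stx I.2.length R := mem_stx.2 hxR
          refine ⟨hxR', ?_⟩
          rcases hx with hx | ⟨u, hu, hux⟩
          · have : x = v := Fin.ext hx
            rw [this]
            exact Relation.ReflTransGen.refl
          · have h1 := ih ⟨u, growN_lt hu⟩ hu
            exact Relation.ReflTransGen.head
              ⟨hxR', h1.1, (edge_iff I x ⟨u, growN_lt hu⟩).1 hux⟩ h1.2
    exact key _ x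
  · rintro ⟨-, hx⟩
    unfold MultiDigraph.Reach at hx
    induction hx using Relation.ReflTransGen.head_induction_on with
    | refl =>
      refine growN_closed v.2 ?_
      simp only [Bool.and_eq_true, Bool.or_eq_true, decide_eq_true_eq]
      exact ⟨mem_stx.1 hv, Or.inl trivial⟩
    | head hstep _ ih =>
      rename_i a c _
      refine growN_closed a.2 ?_
      simp only [Bool.and_eq_true, Bool.or_eq_true, decide_eq_true_eq, List.any_eq_true]
      exact ⟨mem_stx.1 hstep.1, Or.inr ⟨c, ih, (edge_iff I a c).2 hstep.2.2⟩⟩

theorem compL_lt {I : Inst} {R : List ℕ} {v x : ℕ} (h : x ∈ compL I R v) : x < I.2.length :=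
  growN_lt (List.mem_filter.1 h).1

theorem stx_compL (I : Inst) (R : List ℕ) (v : Fin I.2.length) (hv : v ∈ stx I.2.length R) :
    stx I.2.length (compL I R v) = (graphOf I).comp (stx I.2.length R) v := by
  ext x
  have h1 := fwL_iff I R v hv x
  have h2 := bwL_iff I R v hv x
  simp only [stx, Set.mem_ofPred_eq, compL, List.mem_filter, memB_iff, MultiDigraph.comp] at *
  rw [h1, h2]
  exact ⟨fun h => ⟨h.1.1, h.1.2, h.2.2⟩, fun h => ⟨⟨h.1, h.2.1⟩, h.1, h.2.2⟩⟩

end Pool.Agent.Work.MP_85af13_lc
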