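import Pool.Agent.Work.MP_85af13_lc.Rank.SpecA

/-!
Binary search and minimum.
-/

set_option autoImplicit false
set_option linter.unusedSimpArgs false

namespace Pool.Agent.Work.MP_85af13_lc

open Pool.Agent.Work.PolyTime
open Pool.Agent.Work.MP_62a643_lc (leB)

/-- folding over the lowest `j` positions, starting from the digits above -/
def bstep (P : List Bool → Bool) (hd : List Bool) (k : ℕ) : List Bool :=
  (!(P (List.replicate k true ++ false :: hd))) :: hd

theorem bsearch_eq (P : List Bool → Bool) (m : ℕ) :
    bsearch P m = (List.range m).reverse.foldl (bstep P) [] := rfl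

theorem bfold_succ (P : List Bool → Bool) (j : ℕ) (hd : List Bool) :
    (List.range (j + 1)).reverse.foldl (bstep P) hd =
      (List.range j).reverse.foldl (bstep P) (bstep P hd j) := by
  rw [List.range_succ, List.reverse_append, List.reverse_singleton, List.singleton_append,
    List.foldl_cons]

theorem bfold_length (P : List Bool → Bool) (j : ℕ) (hd : List Bool) :
    ((List.range j).reverse.foldl (bstep P) hd).length = hd.length + j := by
  induction j generalizing hd with
  | zero => simp
  | succ j ih => rw [bfold_succ, ih]; simp [bstep]; ring

theorem bsearch_length (P : List Bool → Bool) (m : ℕ) : (bsearch P m).length = m := by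
  rw [bsearch_eq, bfold_length]; simp

theorem binVal_append (a b : List Bool) : binVal (a ++ b) = binVal a + 2 ^ a.length * binVal b := by
  induction a with
  | nil => simp [binVal]
  | cons c a ih => rw [List.cons_append, binVal, ih, binVal, List.length_cons, pow_succ]; ring

theorem binVal_ones (j : ℕ) : binVal (List.replicate j true) + 1 = 2 ^ j := by
  induction j with
  | zero => simp [binVal]
  | succ j ih =>
    rw [List.replicate_succ, binVal, pow_succ, ← ih]
    simp only [Bool.toNat_true]
    ring

theorem bfold_spec (P : List Bool → Bool) (m k : ℕ)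
    (h : ∀ a : List Bool, a.length = m → (P a = true ↔ k ≤ binVal a)) :
    ∀ (j : ℕ) (hd : List Bool), hd.length + j = m → binVal hd = k / 2 ^ j →
      binVal ((List.range j).reverse.foldl (bstep P) hd) = k := by
  intro j
  induction j with
  | zero => intro hd _ h2; simpa using h2
  | succ j ih =>
    intro hd h1 h2
    rw [bfold_succ]
    refine ih _ (by simp [bstep]; omega) ?_
    have h3 := h (List.replicate j true ++ false :: hd) (by simp; omega)
    have h4 : binVal (List.replicate j true ++ false :: hd) + 1 = 2 ^ j + 2 ^ j * (2 * binVal hd) := by
      rw [binVal_append, List.length_replicate, binVal, ← binVal_ones j]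
      simp only [Bool.toNat_false]
      ring
    have h5 : k / 2 ^ j / 2 = binVal hd := by
      rw [h2, pow_succ, Nat.div_div_eq_div_mul]
    have h6 := Nat.div_add_mod k (2 ^ j)
    have h7 : k % 2 ^ j < 2 ^ j := Nat.mod_lt _ (by positivity)
    set a := k / 2 ^ j with ha
    show (!(P (List.replicate j true ++ false :: hd))).toNat + 2 * binVal hd = a
    by_cases hP : P (List.replicate j true ++ false :: hd) = true
    · rw [hP]
      simp only [Bool.not_true, Bool.toNat_false, zero_add]
      have h8 := h3.1 hP
      have h9 : 2 ^ j * a < 2 ^ j * (1 + 2 * binVal hd) := by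
        have : 2 ^ j * (1 + 2 * binVal hd) = 2 ^ j + 2 ^ j * (2 * binVal hd) := by ring
        omega
      have h10 : a < 1 + 2 * binVal hd := lt_of_mul_lt_mul_left h9 (Nat.zero_le _)
      omega
    · have hP' : P (List.replicate j true ++ false :: hd) = false := by
        rwa [Bool.not_eq_true] at hP
      rw [hP']
      simp only [Bool.not_false, Bool.toNat_true]
      have h8 : ¬ k ≤ binVal (List.replicate j true ++ false :: hd) := fun hc => hP (h3.2 hc)
      have h9 : 2 ^ j * (2 * binVal hd) < 2 ^ j * a := by
        by_contra hcon
        push Not at hcon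
        omega
      have h10 : 2 * binVal hd < a := lt_of_mul_lt_mul_left h9 (Nat.zero_le _)
      omega

theorem bsearch_spec (P : List Bool → Bool) (m k : ℕ) (hk : k < 2 ^ m)
    (h : ∀ a : List Bool, a.length = m → (P a = true ↔ k ≤ binVal a)) :
    binVal (bsearch P m) = k := by
  rw [bsearch_eq]
  exact bfold_spec P m k h m [] (by simp) (by rw [Nat.div_eq_of_lt hk]; rfl)

theorem minFold_spec (l : List (List Bool)) : ∀ m₀ : List Bool,
    (l.foldl (fun m a => bif leB a m then a else m) m₀ = m₀ ∨
      l.foldl (fun m a => bif leB a m then a else m) m₀ ∈ l) ∧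
    binVal (l.foldl (fun m a => bif leB a m then a else m) m₀) ≤ binVal m₀ ∧
    ∀ a ∈ l, binVal (l.foldl (fun m a => bif leB a m then a else m) m₀) ≤ binVal a := by
  induction l with
  | nil => intro m₀; simp
  | cons c l ih =>
    intro m₀
    simp only [List.foldl_cons]
    obtain ⟨h1, h2, h3⟩ := ih (bif leB c m₀ then c else m₀)
    have h4 : binVal (bif leB c m₀ then c else m₀) ≤ binVal m₀ := by
      cases hc : leB c m₀ with
      | true => rw [cond_true]; exact (leB_iff' c m₀).1 hc
      | false => rw [cond_false]
    have h5 : binVal (bif leB c m₀ then c else m₀) ≤ binVal c := by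
      cases hc : leB c m₀ with
      | true => rw [cond_true]
      | false =>
        rw [cond_false]
        have : ¬ binVal c ≤ binVal m₀ := fun h => by
          rw [(leB_iff' c m₀).2 h] at hc
          exact absurd hc (by simp)
        omega
    refine ⟨?_, h2.trans h4, ?_⟩
    · rcases h1 with h1 | h1
      · cases hc : leB c m₀ with
        | true =>
          rw [hc, cond_true] at h1
          right
          rw [cond_true, h1]
          exact List.mem_cons_self
        | false =>
          rw [hc, cond_false] at h1
          left
          rw [cond_false, h1]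
      · right
        exact List.mem_cons_of_mem _ h1
    · intro a ha
      rcases List.mem_cons.1 ha with rfl | ha
      · exact h2.trans h5
      · exact h3 a ha

theorem minL_spec (l : List (List Bool)) (hl : l ≠ []) :
    minL l ∈ l ∧ ∀ a ∈ l, binVal (minL l) ≤ binVal a := by
  obtain ⟨h1, h2, h3⟩ := minFold_spec l (l.getD 0 [])
  refine ⟨?_, h3⟩
  rcases h1 with h1 | h1
  · unfold minL
    rw [h1]
    rw [List.getD_eq_getElem _ _ (List.length_pos_of_ne_nil hl)]
    exact List.getElem_mem _
  · exact h1

end Pool.Agent.Work.MP_85af13_lc
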