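import Pool.Agent.Work.MP_85af13_lc.Rank.SpecB
import Pool.Agent.Work.MP_85af13_lc.Rank.SpecC
import Pool.Agent.Work.MP_85af13_lc.Rank.SpecD
import Pool.Agent.Work.MP_85af13_lc.Rank.Rounds

/-!
Correctness of the recursive algorithm.
-/

set_option autoImplicit false
set_option linter.unusedSimpArgs false
set_option linter.unusedSectionVars false

namespace Pool.Agent.Work.MP_85af13_lc

open Pool.Agent.Work.PolyTime

namespace MultiDigraph

variable {V : Type} [Fintype V] [DecidableEq V] (D : MultiDigraph V)

theorem rounds_seq {y : V → ℕ} {R : Set V} {t u : V → ℕ} (h : D.Lst y R t u) (a : ℕ → V → ℕ)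
    (h0 : ∀ v, v ∉ R → a 0 v = t v) (h1 : ∀ v, a 0 v ≤ u v)
    (hstep : ∀ i, (∀ v, v ∉ R → a i v = t v) → (∀ v, a i v ≤ u v) →
      (∀ v, v ∉ R → a (i + 1) v = t v) ∧
        ∀ v ∈ R, ∃ x, D.Lst y (D.comp R v) (a i) x ∧ a (i + 1) v = x v) :
    a (Fintype.card V) = u := by
  classical
  have hex : ∀ (c : V → ℕ), (∀ v, c v ≤ u v) → ∀ v, ∃ x, D.Lst y (D.comp R v) c x := by
    intro c hc v
    exact D.lst_exists ⟨u, fun w _ => hc w, D.quiet_sub h.2.1 (D.comp_sub R v)⟩
  let step : (V → ℕ) → V → ℕ := fun c v =>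
    if v ∈ R then (if hx : ∃ x, D.Lst y (D.comp R v) c x then Classical.choose hx v else 0) else t v
  have hstep' : ∀ c : V → ℕ, (∀ v, v ∉ R → c v = t v) → (∀ v, c v ≤ u v) →
      (∀ v, v ∉ R → step c v = t v) ∧
        ∀ v ∈ R, ∃ x, D.Lst y (D.comp R v) c x ∧ step c v = x v := by
    intro c _ hc
    refine ⟨fun v hv => by simp only [step, if_neg hv], fun v hv => ?_⟩
    have hx := hex c hc v
    exact ⟨_, Classical.choose_spec hx, by simp only [step, if_pos hv, dif_pos hx]⟩
  have hinv : ∀ c : V → ℕ, (∀ v, v ∉ R → c v = t v) → (∀ v, c v ≤ u v) → ∀ v, step c v ≤ u v := by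
    intro c h2 h3 v
    by_cases hv : v ∈ R
    · obtain ⟨x, hx, hxv⟩ := (hstep' c h2 h3).2 v hv
      rw [hxv]
      exact hx.mono D (h.restrict D (D.comp_sub R v)) (fun w _ => h3 w) v
    · rw [(hstep' c h2 h3).1 v hv, h.1 v hv]
  have key : ∀ i, a i = step^[i] (a 0) ∧ (∀ v, v ∉ R → a i v = t v) ∧ ∀ v, a i v ≤ u v := by
    intro i
    induction i with
    | zero => exact ⟨rfl, h0, h1⟩
    | succ i ih =>
      obtain ⟨ih1, ih2, ih3⟩ := ih
      have h4 := hstep i ih2 ih3
      have h5 := hstep' (a i) ih2 ih3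
      have h6 : a (i + 1) = step (a i) := by
        funext v
        by_cases hv : v ∈ R
        · obtain ⟨x, hx, hxv⟩ := h4.2 v hv
          obtain ⟨x', hx', hxv'⟩ := h5.2 v hv
          rw [hxv, hxv', hx.unique D hx']
        · rw [h4.1 v hv, h5.1 v hv]
      refine ⟨?_, h4.1, ?_⟩
      · rw [Function.iterate_succ_apply', ← ih1, h6]
      · rw [h6]
        exact hinv (a i) ih2 ih3
  rw [(key _).1]
  exact D.rounds_exact h step hstep' (a 0) h0 h1

end MultiDigraph

section

variable {I : Inst}

theorem stx_filter (n : ℕ) (C : List ℕ) (s : Fin n) :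
    stx n (C.filter fun x => !(decide (x = (s : ℕ)))) = stx n C \ {s} := by
  ext v
  simp only [stx, Set.mem_ofPred_eq, List.mem_filter, Bool.not_eq_true', decide_eq_false_iff_not,
    Set.mem_sdiff, Set.mem_singleton_iff, Fin.ext_iff]

theorem vs_updL {n w : ℕ} {Z : List (List Bool)} {s : Fin n} {τ : List Bool}
    (hτ : τ.length = w) (hZ : ∀ v, vs n Z v < 2 ^ w) :
    vs n (updL n w Z s τ) = Function.update (vs n Z) s (binVal τ) := by
  funext v
  unfold updL
  rw [vs_tbl]
  by_cases hv : v = s
  · subst hv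
    simp only [decide_true, cond_true, Function.update_self]
    exact Nat.mod_eq_of_lt (hτ ▸ binVal_lt τ)
  · have hv' : ¬ ((v : ℕ) = s) := fun h => hv (Fin.ext h)
    rw [Function.update_of_ne hv]
    simp only [hv', decide_false, cond_false]
    exact Nat.mod_eq_of_lt (hZ v)

/-- the new value of one vertex is correct -/
theorem newL_spec (hE : ∀ v, (graphOf I).outDeg v = (graphOf I).inDeg v)
    {F : List ℕ → List (List Bool) → List (List Bool)} {b r w : ℕ} {CC : Set (Fin I.2.length)}
    (hF : ∀ (C' : List ℕ) (t : List (List Bool)), stx I.2.length C' ⊆ CC →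
      (graphOf I).Rank b r (stx I.2.length C') → (∀ v, vs I.2.length t v < 2 ^ w) →
      (graphOf I).Lst (chipsOf I) (stx I.2.length C') (vs I.2.length t)
        (vs I.2.length (F C' t)))
    {C : List ℕ} (hC : stx I.2.length C = CC) (hCn : ∀ x ∈ C, x < I.2.length)
    {s : Fin I.2.length} (hs : s ∈ CC) (hr : (graphOf I).Rank b r (CC \ {s}))
    {U : List (List Bool)} (hU : ∀ v, vs I.2.length U v < 2 ^ w) {x : Fin I.2.length → ℕ}
    (hx : (graphOf I).Lst (chipsOf I) CC (vs I.2.length U) x) (hxw : ∀ v, x v < 2 ^ w)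
    (v : Fin I.2.length) : binVal (newL I F w C U v) = x v := by
  have hcand : ∀ (s : Fin I.2.length) (y : Fin I.2.length), y ∉ CC → vs I.2.length (candL I F w C U s) y = vs I.2.length U y := by
    intro s y hy
    unfold candL
    rw [vs_tbl]
    have h1 : memB (y : ℕ) C = false := by
      rw [← Bool.not_eq_true, ← mem_stx, hC]
      exact hy
    rw [h1, cond_false]
    exact Nat.mod_eq_of_lt (hU y)
  -- the good vertex
  have hgood : vs I.2.length (candL I F w C U s) = x := by
    have hsub : stx I.2.length (C.filter fun x => !(decide (x = (s : ℕ)))) = CC \ {s} := by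
      rw [stx_filter, hC]
    have hrun : ∀ τ : List Bool, τ.length = w →
        (graphOf I).Lst (chipsOf I) (CC \ {s}) (Function.update (vs I.2.length U) s (binVal τ))
          (vs I.2.length (F (C.filter fun x => !(decide (x = (s : ℕ)))) (updL I.2.length w U s τ))) := by
      intro τ hτ
      have h1 := hF (C.filter fun x => !(decide (x = (s : ℕ)))) (updL I.2.length w U s τ)
        (by rw [hsub]; exact Set.sdiff_subset) (by rw [hsub]; exact hr)
        (fun v => by unfold updL; exact vs_tbl_lt _ _ _ _)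
      rw [hsub, vs_updL hτ hU] at h1
      exact h1
    have hfr := hx.freeze (graphOf I) s
    have htau : binVal (tauL I F w C U s) = x s := by
      unfold tauL
      refine bsearch_spec _ w (x s) (hxw s) fun τ hτ => ?_
      rw [Bool.not_eq_true', hotC_false]
      constructor
      · intro h1
        by_contra hcon
        push Not at hcon
        exact (graphOf I).not_quiet_below hs hx hcon (hrun τ hτ) h1
      · intro h1
        exact (graphOf I).quiet_step hE h1 (fun h => h.2 rfl) hfr (hrun τ hτ) (hx.2.1 s hs)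
    have hlen : (tauL I F w C U s).length = w := bsearch_length _ _
    have h2 := hrun _ hlen
    rw [htau] at h2
    have h3 := h2.unique (graphOf I) hfr
    funext y
    by_cases hy : y ∈ CC
    · unfold candL
      rw [vs_tbl]
      have h4 : memB (y : ℕ) C = true := by rw [← mem_stx, hC]; exact hy
      rw [h4, cond_true]
      have h5 := congrFun h3 y
      unfold vs at h5
      rw [h5]
      exact Nat.mod_eq_of_lt (hxw y)
    · rw [hcand s y hy, hx.1 y hy]
  have hmem : (candL I F w C U s).getD v [] ∈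
      ((C.filter fun s => quietB I C (candL I F w C U s)).map fun s =>
        (candL I F w C U s).getD v []) := by
    refine List.mem_map.2 ⟨s, List.mem_filter.2 ⟨?_, ?_⟩, rfl⟩
    · rw [← hC] at hs
      exact hs
    · rw [quietB_iff I C _ hCn, hgood, hC]
      exact hx.2.1
  have hne : ((C.filter fun s => quietB I C (candL I F w C U s)).map fun s =>
        (candL I F w C U s).getD v []) ≠ [] := List.ne_nil_of_mem hmem
  obtain ⟨h1, h2⟩ := minL_spec _ hne
  unfold newL
  apply le_antisymm
  · have h3 := h2 _ hmem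
    have h4 := congrFun hgood v
    unfold vs at h4
    rw [h4] at h3
    exact h3
  · obtain ⟨s', hs', he⟩ := List.mem_map.1 h1
    rw [← he]
    obtain ⟨hs1, hs2⟩ := List.mem_filter.1 hs'
    rw [quietB_iff I C _ hCn, hC] at hs2
    have hs'n := hCn s' hs1
    exact hx.2.2 _ (fun y hy => (hcand ⟨s', hs'n⟩ y hy).ge) hs2 v

theorem lst_lt (hE : ∀ v, (graphOf I).outDeg v = (graphOf I).inDeg v)
    {q : Fin I.2.length} {z : Fin I.2.length → ℕ} {N : ℕ}
    (hz : (graphOf I).Quiet (chipsOf I) {q}ᶜ z) (hN : ∀ v, z v ≤ N) {w : ℕ} (hw : N ≤ 2 ^ w)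
    {R : Set (Fin I.2.length)} (hq : q ∉ R) {t : Fin I.2.length → ℕ} (ht : ∀ v, t v < 2 ^ w) :
    ∃ u, (graphOf I).Lst (chipsOf I) R t u ∧ ∀ v, u v < 2 ^ (w + 1) := by
  obtain ⟨u, hu, hu2⟩ := (graphOf I).lst_exists_of hE hz hN hq (T := 2 ^ w - 1)
    (fun v _ => Nat.le_sub_one_of_lt (ht v))
  refine ⟨u, hu, fun v => ?_⟩
  have h1 := hu2 v
  have h2 : 0 < 2 ^ w := by positivity
  rw [pow_succ]
  omega

theorem solve_spec (hE : ∀ v, (graphOf I).outDeg v = (graphOf I).inDeg v)
    {q : Fin I.2.length} {z : Fin I.2.length → ℕ} {N : ℕ}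
    (hz : (graphOf I).Quiet (chipsOf I) {q}ᶜ z) (hN : ∀ v, z v ≤ N)
    (hd : ∀ v, v ≠ q → 0 < (graphOf I).outDeg v) {b B : ℕ} (hB : 2 * b * I.2.length ≤ B) :
    ∀ (r w : ℕ) (R : List ℕ) (t : List (List Bool)), N ≤ 2 ^ w → (∀ v, chipsOf I v < 2 ^ w) →
      q ∉ stx I.2.length R → (graphOf I).Rank b r (stx I.2.length R) →
      (∀ v, vs I.2.length t v < 2 ^ w) →
      (graphOf I).Lst (chipsOf I) (stx I.2.length R) (vs I.2.length t)
        (vs I.2.length (solve I B r w R t)) := by
  intro r
  induction r with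
  | zero =>
    intro w R t hw hc hq hr ht
    obtain ⟨u, hu, hu2⟩ := lst_lt hE hz hN hw hq ht
    have h1 : vs I.2.length (baseR I w B R t) = u :=
      baseR_spec hE hr hB (fun v hv => hd v fun h => hq (h ▸ hv)) hc ht hu hu2
    unfold solve
    rw [h1]
    exact hu
  | succ r ih =>
    intro w R t hw hc hq hr ht
    obtain ⟨u, hu, hu2⟩ := lst_lt hE hz hN hw hq ht
    let st : ℕ → List (List Bool) := fun i => (List.range i).foldl
      (fun u _ => roundL I (solve I B r (w + 1)) (w + 1) R u)
      (tbl I.2.length (w + 1) fun v => bif memB v R then [] else t.getD v [])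
    have hst : ∀ i, st (i + 1) = roundL I (solve I B r (w + 1)) (w + 1) R (st i) := by
      intro i
      simp only [st, List.range_succ, List.foldl_append, List.foldl_cons, List.foldl_nil]
    have h2w : ∀ k, k < 2 ^ w → k < 2 ^ (w + 1) := fun k hk => by rw [pow_succ]; omega
    have h1 : (fun i => vs I.2.length (st i)) (Fintype.card (Fin I.2.length)) = u := by
      refine (graphOf I).rounds_seq hu (fun i => vs I.2.length (st i)) ?_ ?_ ?_
      · intro v hv
        simp only [st, List.range_zero, List.foldl_nil]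
        rw [vs_tbl]
        have h3 : memB (v : ℕ) R = false := by
          rw [← Bool.not_eq_true, ← mem_stx]; exact hv
        rw [h3, cond_false]
        exact Nat.mod_eq_of_lt (h2w _ (ht v))
      · intro v
        simp only [st, List.range_zero, List.foldl_nil]
        rw [vs_tbl]
        by_cases hv : v ∈ stx I.2.length R
        · have h3 : memB (v : ℕ) R = true := mem_stx.1 hv
          rw [h3, cond_true]
          simp [binVal]
        · have h3 : memB (v : ℕ) R = false := by
            rw [← Bool.not_eq_true, ← mem_stx]; exact hv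
          rw [h3, cond_false]
          exact (Nat.mod_le _ _).trans (hu.1 v hv).ge
      · intro i h3 h4
        have hU : ∀ v, vs I.2.length (st i) v < 2 ^ (w + 1) := fun v => (h4 v).trans_lt (hu2 v)
        simp only [hst]
        refine ⟨fun v hv => ?_, fun v hv => ?_⟩
        · unfold roundL
          rw [vs_tbl]
          have h5 : memB (v : ℕ) R = false := by
            rw [← Bool.not_eq_true, ← mem_stx]; exact hv
          rw [h5, cond_false]
          exact (Nat.mod_eq_of_lt (hU v)).trans (h3 v hv)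
        · obtain ⟨x, hx⟩ := (graphOf I).lst_exists (y := chipsOf I) (R := (graphOf I).comp (stx I.2.length R) v)
            (t := vs I.2.length (st i)) ⟨u, fun w _ => h4 w, (graphOf I).quiet_sub hu.2.1 ((graphOf I).comp_sub _ v)⟩
          have hxu : ∀ w, x w ≤ u w :=
            hx.mono (graphOf I) (hu.restrict (graphOf I) ((graphOf I).comp_sub _ v)) (fun w _ => h4 w)
          refine ⟨x, hx, ?_⟩
          obtain ⟨s, hs, hrs⟩ := (graphOf I).rank_vertex hr hv
          have h6 := newL_spec hE (F := solve I B r (w + 1)) (b := b) (r := r) (w := w + 1)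
            (CC := (graphOf I).comp (stx I.2.length R) v) (fun C' t' hC' hr' ht' => ih (w + 1) C' t'
              (hw.trans (Nat.pow_le_pow_right (by norm_num) (Nat.le_succ _)))
              (fun v => h2w _ (hc v)) (fun hq' => hq ((graphOf I).comp_sub _ v (hC' hq'))) hr' ht')
            (C := compL I R v) (stx_compL I R v hv) (fun y hy => compL_lt hy) hs hrs hU hx
            (fun y => (hxu y).trans_lt (hu2 y)) v
          unfold roundL
          rw [vs_tbl]
          have h5 : memB (v : ℕ) R = true := mem_stx.1 hv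
          rw [h5, cond_true, h6]
          exact Nat.mod_eq_of_lt ((hxu v).trans_lt (hu2 v))
    have h2 : solve I B (r + 1) w R t = st (Fintype.card (Fin I.2.length)) := by
      rw [Fintype.card_fin]
      rfl
    rw [h2]
    have h3 : vs I.2.length (st (Fintype.card (Fin I.2.length))) = u := h1
    rw [h3]
    exact hu

end

end Pool.Agent.Work.MP_85af13_lc
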