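import Pool.Agent.Work.MP_85af13_lc.Rep

/-!
Least scripts with frozen vertices.
-/

set_option autoImplicit false
set_option linter.unusedSectionVars false

namespace Pool.Agent.Work.MP_85af13_lc

namespace MultiDigraph

variable {V : Type} [Fintype V] [DecidableEq V] (D : MultiDigraph V)

/-- After firing according to `u`, starting from the chips `y`, no vertex of `R` is active. -/
def Quiet (y : V → ℕ) (R : Set V) (u : V → ℕ) : Prop :=
  ∀ v ∈ R, y v + ∑ w, D.m w v * u w < D.outDeg v * (u v + 1)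

/-- `u` is the least script which is `t` off `R` and quiet on `R`. -/
def Lst (y : V → ℕ) (R : Set V) (t u : V → ℕ) : Prop :=
  (∀ v, v ∉ R → u v = t v) ∧ D.Quiet y R u ∧
    ∀ u' : V → ℕ, (∀ v, v ∉ R → t v ≤ u' v) → D.Quiet y R u' → ∀ v, u v ≤ u' v

theorem inflow_mono {v : V} {u u' : V → ℕ} (h : ∀ w, u w ≤ u' w) :
    ∑ w, D.m w v * u w ≤ ∑ w, D.m w v * u' w :=
  Finset.sum_le_sum fun w _ => Nat.mul_le_mul_left _ (h w)

theorem quiet_min {y : V → ℕ} {R : Set V} {u u' : V → ℕ} (h : D.Quiet y R u)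
    (h' : D.Quiet y R u') : D.Quiet y R (fun v => min (u v) (u' v)) := by
  intro v hv
  rcases le_total (u v) (u' v) with h1 | h1
  · simp only [min_eq_left h1]
    refine lt_of_le_of_lt ?_ (h v hv)
    exact Nat.add_le_add_left (D.inflow_mono fun w => min_le_left _ _) _
  · simp only [min_eq_right h1]
    refine lt_of_le_of_lt ?_ (h' v hv)
    exact Nat.add_le_add_left (D.inflow_mono fun w => min_le_right _ _) _

theorem quiet_sub {y : V → ℕ} {R R' : Set V} {u : V → ℕ} (h : D.Quiet y R u) (hR : R' ⊆ R) :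
    D.Quiet y R' u := fun v hv => h v (hR hv)

/-- existence of the least script -/
theorem lst_exists {y : V → ℕ} {R : Set V} {t : V → ℕ} (h : ∃ u' : V → ℕ,
    (∀ v, v ∉ R → t v ≤ u' v) ∧ D.Quiet y R u') : ∃ u, D.Lst y R t u := by
  classical
  obtain ⟨u₀, h1, h2⟩ := h
  have hex : ∃ u : V → ℕ, (∀ v, v ∉ R → u v = t v) ∧ D.Quiet y R u := by
    refine ⟨fun v => if v ∈ R then u₀ v else t v, fun v hv => if_neg hv, fun v hv => ?_⟩
    simp only [if_pos hv]
    refine lt_of_le_of_lt ?_ (h2 v hv)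
    refine Nat.add_le_add_left (D.inflow_mono fun w => ?_) _
    split_ifs with hw
    · exact le_rfl
    · exact h1 w hw
  have hmin : ∃ u : V → ℕ, ((∀ v, v ∉ R → u v = t v) ∧ D.Quiet y R u) ∧
      ∀ u', ((∀ v, v ∉ R → u' v = t v) ∧ D.Quiet y R u') → ∑ v, u v ≤ ∑ v, u' v := by
    obtain ⟨u, hu⟩ := hex
    have h3 : ∃ n, ∃ u : V → ℕ, ((∀ v, v ∉ R → u v = t v) ∧ D.Quiet y R u) ∧ ∑ v, u v = n :=
      ⟨_, u, hu, rfl⟩
    obtain ⟨u', hu', hn⟩ := Nat.find_spec h3
    refine ⟨u', hu', fun u'' hu'' => ?_⟩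
    rw [hn]
    exact Nat.find_min' h3 ⟨u'', hu'', rfl⟩
  obtain ⟨u, ⟨hu1, hu2⟩, hu3⟩ := hmin
  refine ⟨u, hu1, hu2, fun u' h3 h4 v => ?_⟩
  have h5 := hu3 (fun v => min (u v) (u' v)) ⟨fun v hv => ?_, D.quiet_min hu2 h4⟩
  · by_contra h6
    push Not at h6
    have h7 : ∑ v, min (u v) (u' v) < ∑ v, u v :=
      Finset.sum_lt_sum (fun w _ => min_le_left _ _) ⟨v, Finset.mem_univ _, by
        show min (u v) (u' v) < u v
        omega⟩
    omega
  · show min (u v) (u' v) = t v
    rw [hu1 v hv, min_eq_left (h3 v hv)]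

theorem Lst.unique {y : V → ℕ} {R : Set V} {t u u' : V → ℕ} (h : D.Lst y R t u)
    (h' : D.Lst y R t u') : u = u' := by
  funext v
  exact le_antisymm (h.2.2 u' (fun v hv => (h'.1 v hv).ge) h'.2.1 v)
    (h'.2.2 u (fun v hv => (h.1 v hv).ge) h.2.1 v)

theorem Lst.mono {y : V → ℕ} {R : Set V} {t t' u u' : V → ℕ} (h : D.Lst y R t u)
    (h' : D.Lst y R t' u') (ht : ∀ v, v ∉ R → t v ≤ t' v) (v : V) : u v ≤ u' v :=
  h.2.2 u' (fun w hw => (ht w hw).trans (h'.1 w hw).ge) h'.2.1 v

theorem quiet_add (hE : ∀ v, D.outDeg v = D.inDeg v) {y : V → ℕ} {R : Set V} {u : V → ℕ} (c : ℕ)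
    (h : D.Quiet y R u) : D.Quiet y R (fun v => u v + c) := by
  intro v hv
  have h1 := h v hv
  have h2 : ∑ w, D.m w v * (u w + c) = ∑ w, D.m w v * u w + D.outDeg v * c := by
    rw [hE v, inDeg, Finset.sum_mul, ← Finset.sum_add_distrib]
    exact Finset.sum_congr rfl fun w _ => by ring
  rw [h2]
  calc y v + (∑ w, D.m w v * u w + D.outDeg v * c)
      = y v + ∑ w, D.m w v * u w + D.outDeg v * c := by ring
    _ < D.outDeg v * (u v + 1) + D.outDeg v * c := by omega
    _ = D.outDeg v * (u v + c + 1) := by ring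

theorem Lst.shift (hE : ∀ v, D.outDeg v = D.inDeg v) {y : V → ℕ} {R : Set V} {t t' u u' : V → ℕ}
    (c : ℕ) (h : D.Lst y R t u) (h' : D.Lst y R t' u') (ht : ∀ v, v ∉ R → t' v ≤ t v + c) (v : V) :
    u' v ≤ u v + c :=
  h'.2.2 (fun v => u v + c) (fun w hw => (ht w hw).trans (by rw [h.1 w hw])) (D.quiet_add hE c h.2.1) v

/-- restriction to a smaller set of free vertices -/
theorem Lst.restrict {y : V → ℕ} {R C : Set V} {t u : V → ℕ} (h : D.Lst y R t u) (hC : C ⊆ R) :
    D.Lst y C u u := by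
  refine ⟨fun v _ => rfl, D.quiet_sub h.2.1 hC, fun u' h1 h2 => ?_⟩
  have h3 : ∀ v, u v ≤ min (u v) (u' v) := by
    refine h.2.2 _ (fun v hv => ?_) ?_
    · rw [← h.1 v hv]
      exact le_min le_rfl (h1 v fun hc => hv (hC hc))
    · intro v hv
      by_cases hvC : v ∈ C
      · exact D.quiet_min (D.quiet_sub h.2.1 hC) h2 v hvC
      · have h4 : min (u v) (u' v) = u v := min_eq_left (h1 v hvC)
        simp only [h4]
        refine lt_of_le_of_lt ?_ (h.2.1 v hv)
        exact Nat.add_le_add_left (D.inflow_mono fun w => min_le_left _ _) _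
  exact fun v => (h3 v).trans (min_le_right _ _)

/-- the least script only depends on the values at the vertices with an edge into the free set -/
theorem Lst.local {y : V → ℕ} {C : Set V} {t t' u u' : V → ℕ} (h : D.Lst y C t u)
    (h' : D.Lst y C t' u') (ht : ∀ w, w ∉ C → (∃ v ∈ C, 0 < D.m w v) → t w ≤ t' w) :
    ∀ v ∈ C, u v ≤ u' v := by
  classical
  have h1 := h.2.2 (fun v => if v ∈ C then u' v else t v) (fun v hv => (if_neg hv).ge) (by
    intro v hv
    simp only [if_pos hv]
    refine lt_of_le_of_lt ?_ (h'.2.1 v hv)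
    refine Nat.add_le_add_left (Finset.sum_le_sum fun w _ => ?_) _
    by_cases hw : w ∈ C
    · rw [if_pos hw]
    · rw [if_neg hw]
      rcases Nat.eq_zero_or_pos (D.m w v) with h0 | h0
      · rw [h0, Nat.zero_mul, Nat.zero_mul]
      · rw [h'.1 w hw]
        exact Nat.mul_le_mul_left _ (ht w hw ⟨v, hv, h0⟩))
  intro v hv
  have h2 := h1 v
  simp only [if_pos hv] at h2
  exact h2

/-- the least script is the least script with one more frozen vertex -/
theorem Lst.freeze {y : V → ℕ} {R : Set V} {t u : V → ℕ} (h : D.Lst y R t u) (s : V) :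
    D.Lst y (R \ {s}) (Function.update t s (u s)) u := by
  classical
  refine ⟨fun v hv => ?_, D.quiet_sub h.2.1 Set.sdiff_subset, fun u' h1 h2 => ?_⟩
  · by_cases hvs : v = s
    · subst hvs
      rw [Function.update_self]
    · rw [Function.update_of_ne hvs]
      exact h.1 v fun hR => hv ⟨hR, hvs⟩
  · have h3 : ∀ v, u v ≤ min (u v) (u' v) := by
      have h5 : u s ≤ u' s := by
        have := h1 s (fun hs => hs.2 rfl)
        rwa [Function.update_self] at this
      refine h.2.2 _ (fun v hv => ?_) ?_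
      · rw [← h.1 v hv]
        refine le_min le_rfl ?_
        by_cases hvs : v = s
        · rw [hvs]; exact h5
        · have := h1 v fun hs => hv hs.1
          rwa [Function.update_of_ne hvs, ← h.1 v hv] at this
      · intro v hv
        by_cases hvs : v = s
        · subst hvs
          simp only [min_eq_left h5]
          refine lt_of_le_of_lt ?_ (h.2.1 v hv)
          exact Nat.add_le_add_left (D.inflow_mono fun w => min_le_left _ _) _
        · exact D.quiet_min (D.quiet_sub h.2.1 Set.sdiff_subset) h2 v ⟨hv, hvs⟩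
    exact fun v => (h3 v).trans (min_le_right _ _)

/-- quietness at `s` of the least script with `s` frozen is monotone in the frozen value -/
theorem quiet_step (hE : ∀ v, D.outDeg v = D.inDeg v) {y : V → ℕ} {R : Set V} {t u u' : V → ℕ}
    {s : V} {a b : ℕ} (hab : a ≤ b) (hs : s ∉ R)
    (h : D.Lst y R (Function.update t s a) u) (h' : D.Lst y R (Function.update t s b) u')
    (hq : y s + ∑ w, D.m w s * u w < D.outDeg s * (u s + 1)) :
    y s + ∑ w, D.m w s * u' w < D.outDeg s * (u' s + 1) := by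
  classical
  have h1 : ∀ v, u' v ≤ u v + (b - a) := by
    refine h.shift D hE (b - a) h' fun v _ => ?_
    by_cases hvs : v = s
    · subst hvs
      rw [Function.update_self, Function.update_self]
      omega
    · rw [Function.update_of_ne hvs, Function.update_of_ne hvs]
      omega
  have h2 : u s = a := by rw [h.1 s hs, Function.update_self]
  have h3 : u' s = b := by rw [h'.1 s hs, Function.update_self]
  have h4 : ∑ w, D.m w s * u' w ≤ ∑ w, D.m w s * u w + D.outDeg s * (b - a) := by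
    calc ∑ w, D.m w s * u' w ≤ ∑ w, D.m w s * (u w + (b - a)) := D.inflow_mono h1
      _ = ∑ w, D.m w s * u w + D.outDeg s * (b - a) := by
        rw [hE s, inDeg, Finset.sum_mul, ← Finset.sum_add_distrib]
        exact Finset.sum_congr rfl fun w _ => by ring
  rw [h3]
  rw [h2] at hq
  calc y s + ∑ w, D.m w s * u' w ≤ y s + ∑ w, D.m w s * u w + D.outDeg s * (b - a) := by omega
    _ < D.outDeg s * (a + 1) + D.outDeg s * (b - a) := by omega
    _ = D.outDeg s * (a + 1 + (b - a)) := by ring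
    _ = D.outDeg s * (b + 1) := by congr 1; omega

/-- below the value of the least script the frozen vertex is active -/
theorem not_quiet_below {y : V → ℕ} {R : Set V} {t u u' : V → ℕ} {s : V} (hs : s ∈ R) {a : ℕ}
    (h : D.Lst y R t u) (ha : a < u s)
    (h' : D.Lst y (R \ {s}) (Function.update t s a) u') :
    ¬ (y s + ∑ w, D.m w s * u' w < D.outDeg s * (u' s + 1)) := by
  classical
  intro hq
  have h1 : D.Quiet y R u' := by
    intro v hv
    by_cases hvs : v = s
    · subst hvs; exact hq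
    · exact h'.2.1 v ⟨hv, hvs⟩
  have h2 := h.2.2 u' (fun v hv => by
    have hvs : v ≠ s := fun h0 => hv (h0 ▸ hs)
    rw [h'.1 v fun h0 => hv h0.1, Function.update_of_ne hvs]) h1 s
  have h3 : u' s = a := by rw [h'.1 s (fun h0 => h0.2 rfl), Function.update_self]
  omega

/-- existence and bound for all sets of free vertices avoiding `q` -/
theorem lst_exists_of (hE : ∀ v, D.outDeg v = D.inDeg v) {y : V → ℕ} {q : V} {N : ℕ} {z : V → ℕ}
    (hz : D.Quiet y {q}ᶜ z) (hN : ∀ v, z v ≤ N) {R : Set V} (hq : q ∉ R) {t : V → ℕ} {T : ℕ}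
    (hT : ∀ v, v ∉ R → t v ≤ T) :
    ∃ u, D.Lst y R t u ∧ ∀ v, u v ≤ N + T := by
  have h1 : D.Quiet y R (fun v => z v + T) :=
    D.quiet_sub (D.quiet_add hE T hz) fun v hv hvq => hq (by rwa [Set.mem_singleton_iff.1 hvq] at hv)
  have h2 : ∀ v, v ∉ R → t v ≤ z v + T := fun v hv => (hT v hv).trans (by omega)
  obtain ⟨u, hu⟩ := D.lst_exists ⟨_, h2, h1⟩
  exact ⟨u, hu, fun v => (hu.2.2 _ h2 h1 v).trans (by have := hN v; omega)⟩

/-- halving -/
theorem Lst.half {y : V → ℕ} {R : Set V} {t u u' : V → ℕ} (h : D.Lst y R t u)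
    (h' : D.Lst (fun v => y v / 2) R (fun v => t v / 2) u') (v : V) : 2 * u' v ≤ u v := by
  have h1 := h'.2.2 (fun v => u v / 2) (fun w hw => by rw [h.1 w hw]) (by
    intro v hv
    have h2 := h.2.1 v hv
    have h3 : 2 * (∑ w, D.m w v * (u w / 2)) ≤ ∑ w, D.m w v * u w := by
      rw [Finset.mul_sum]
      refine Finset.sum_le_sum fun w _ => ?_
      calc 2 * (D.m w v * (u w / 2)) = D.m w v * (2 * (u w / 2)) := by ring
        _ ≤ D.m w v * u w := Nat.mul_le_mul_left _ (Nat.mul_div_le _ _)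
    have h4 : D.outDeg v * (u v + 1) ≤ D.outDeg v * (2 * (u v / 2 + 1)) :=
      Nat.mul_le_mul_left _ (by omega)
    have h5 : D.outDeg v * (2 * (u v / 2 + 1)) = 2 * (D.outDeg v * (u v / 2 + 1)) := by ring
    show y v / 2 + ∑ w, D.m w v * (u w / 2) < D.outDeg v * (u v / 2 + 1)
    omega) v
  have h6 : u' v ≤ u v / 2 := h1
  omega

end MultiDigraph

end Pool.Agent.Work.MP_85af13_lc
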