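import Pool.Agent.Work.MP_85af13_lc.Rank.SpecA

/-!
Polynomial time of the base case and of the components (MODULE TimeA).

Patterns: Check.lean (PTime.degL, PTime.hotB, PTime.eulB) and Grow.lean (PTime.growN with PTime.foldl).
sz_tbl: List.map and List.range; sz_list_le (used in UP.lean, exists_cert) and sz_word: every entry has
at most w digits. Every fold has states which are the starting state or a tbl, so PTime.foldl applies
with the bound B := sz (starting state) + (1 + n * (4 * w + 2)) (PTime.sz_le, PB.add, PB.mul).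
tbl: PTime.map over PTime.range, PTime.take. The fold over (List.range w).reverse in baseR uses
PTime.reverse. In baseR the states are [] or the result of dblR, which is a tbl (roundsR of a tbl is a
tbl: last step fireR or, for B = 0, the starting table).
-/

set_option autoImplicit false
set_option linter.unusedSimpArgs false

namespace Pool.Agent.Work.MP_85af13_lc

open Pool.Agent.Work.PolyTime
open Pool.Agent.Work.MP_63b90e_lc (addB shiftB)
open Pool.Agent.Work.MP_62a643_lc (leB)

theorem sz_tbl (n w : ℕ) (g : ℕ → List Bool) : sz (tbl n w g) ≤ 1 + n * (4 * w + 2) := by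
  have h := sz_list_le (tbl n w g) (4 * w + 1) (fun a ha => by
    unfold tbl at ha
    obtain ⟨v, -, rfl⟩ := List.mem_map.1 ha
    refine (sz_word _).trans ?_
    have h2 : ((g v).take w).length ≤ w := List.length_take_le _ _
    omega)
  have h3 : (tbl n w g).length = n := by simp [tbl]
  rw [h3] at h
  refine h.trans (le_of_eq ?_)
  ring

/-- the result of roundsR is a table if the starting script is -/
theorem roundsR_tbl (I : Inst) (w B : ℕ) (R : List ℕ) (Y Z : List (List Bool))
    (hZ : ∃ g, Z = tbl I.2.length w g) : ∃ g, roundsR I w B R Y Z = tbl I.2.length w g := by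
  induction B with
  | zero => exact hZ
  | succ B _ =>
    unfold roundsR
    rw [List.range_succ, List.foldl_append]
    exact ⟨_, rfl⟩

private theorem baseR_state (I : Inst) (w B : ℕ) (R : List ℕ) (t : List (List Bool))
    (l : List ℕ) : sz (l.foldl (fun Z j => dblR I (w + 1) B R t Z j) []) ≤
      1 + I.2.length * (4 * (w + 1) + 2) := by
  induction l using List.reverseRecOn with
  | nil =>
    rw [List.foldl_nil, sz_nil]
    omega
  | append_singleton l b _ =>
    rw [List.foldl_append]
    obtain ⟨g, hg⟩ := roundsR_tbl I (w + 1) B R (I.2.map fun l => l.drop b)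
      (tbl I.2.length (w + 1) fun v => bif memB v R then
        false :: (l.foldl (fun Z j => dblR I (w + 1) B R t Z j) []).getD v []
        else (t.getD v []).drop b) ⟨_, rfl⟩
    have h1 : List.foldl (fun Z j => dblR I (w + 1) B R t Z j)
        (l.foldl (fun Z j => dblR I (w + 1) B R t Z j) []) [b] = tbl I.2.length (w + 1) g := hg
    rw [h1]
    exact sz_tbl _ _ _

theorem sz_baseR (I : Inst) (w B : ℕ) (R : List ℕ) (t : List (List Bool)) :
    sz (baseR I w B R t) ≤ 1 + I.2.length * (4 * (w + 1) + 2) :=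
  baseR_state I w B R t _

section

variable {α : Type} [Code α]

private theorem pb_nat {n : α → ℕ} (hn : PTime n) : PB n :=
  PB.mono hn.sz_le fun a => by rw [sz_nat]; omega

private theorem pb_tbl {n w : α → ℕ} (hn : PTime n) (hw : PTime w) :
    PB (fun x => 1 + n x * (4 * w x + 2)) :=
  PB.add (PB.const 1) (PB.mul (pb_nat hn) (PB.add (PB.mul (PB.const 4) (pb_nat hw)) (PB.const 2)))

theorem PTime.tbl {n w : α → ℕ} {g : α → ℕ → List Bool} (hn : PTime n) (hw : PTime w)
    (hg : PTime (fun y : α × ℕ => g y.1 y.2)) :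
    PTime (fun x => MP_85af13_lc.tbl (n x) (w x) (g x)) := by
  unfold MP_85af13_lc.tbl
  exact PTime.map (f := fun x v => (g x v).take (w x)) (PTime.range hn)
    (PTime.take hg (hw.comp PTime.fst))

theorem PTime.hotC {I : α → Inst} {Y Z : α → List (List Bool)} {v : α → ℕ} (hI : PTime I)
    (hY : PTime Y) (hZ : PTime Z) (hv : PTime v) :
    PTime (fun x => MP_85af13_lc.hotC (I x) (Y x) (Z x) (v x)) := by
  unfold MP_85af13_lc.hotC
  refine PTime.leB' (PTime.mulB (PTime.degL hI hv) (PTime.addB' (PTime.nth hZ hv (PTime.const _))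
    (PTime.const _))) (PTime.addB' (PTime.nth hY hv (PTime.const _)) ?_)
  refine PTime.sumL (PTime.map (f := fun x u => MP_85af13_lc.mulB (MP_85af13_lc.mlB (I x) u (v x))
    ((Z x).getD u [])) (PTime.range (PTime.size hI)) ?_)
  exact PTime.mulB (PTime.mlB (hI.comp PTime.fst) PTime.snd (hv.comp PTime.fst))
    (PTime.nth (hZ.comp PTime.fst) PTime.snd (PTime.const _))

theorem PTime.fireR {I : α → Inst} {w : α → ℕ} {R : α → List ℕ} {Y Z : α → List (List Bool)}
    (hI : PTime I) (hw : PTime w) (hR : PTime R) (hY : PTime Y) (hZ : PTime Z) :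
    PTime (fun x => MP_85af13_lc.fireR (I x) (w x) (R x) (Y x) (Z x)) := by
  unfold MP_85af13_lc.fireR
  have hz : PTime (fun y : α × ℕ => (Z y.1).getD y.2 []) :=
    PTime.nth (hZ.comp PTime.fst) PTime.snd (PTime.const _)
  refine PTime.tbl (g := fun x v => bif memB v (R x) && MP_85af13_lc.hotC (I x) (Y x) (Z x) v
    then addB ((Z x).getD v []) [true] else (Z x).getD v []) (PTime.size hI) hw ?_
  refine PTime.cond (PTime.and (PTime.memB PTime.snd (hR.comp PTime.fst))
    (PTime.hotC (hI.comp PTime.fst) (hY.comp PTime.fst) (hZ.comp PTime.fst) PTime.snd))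
    (PTime.addB' hz (PTime.const _)) hz

theorem PTime.roundsR {I : α → Inst} {w B : α → ℕ} {R : α → List ℕ}
    {Y Z : α → List (List Bool)} (hI : PTime I) (hw : PTime w) (hB : PTime B) (hR : PTime R)
    (hY : PTime Y) (hZ : PTime Z) :
    PTime (fun x => MP_85af13_lc.roundsR (I x) (w x) (B x) (R x) (Y x) (Z x)) := by
  unfold MP_85af13_lc.roundsR
  have hf : PTime (fun y : α × List (List Bool) × ℕ =>
      MP_85af13_lc.fireR (I y.1) (w y.1) (R y.1) (Y y.1) y.2.1) :=
    PTime.fireR (hI.comp PTime.fst) (hw.comp PTime.fst) (hR.comp PTime.fst) (hY.comp PTime.fst)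
      (by fun_prop)
  refine PTime.foldl (f := fun y : α × List (List Bool) × ℕ =>
      MP_85af13_lc.fireR (I y.1) (w y.1) (R y.1) (Y y.1) y.2.1) (PTime.range hB) hZ hf
    (PB.add hZ.sz_le (pb_tbl (PTime.size hI) hw)) ?_
  intro x l' _
  induction l' using List.reverseRecOn with
  | nil =>
    rw [List.foldl_nil]
    omega
  | append_singleton l b _ =>
    rw [List.foldl_append]
    refine le_trans ?_ (Nat.le_add_left _ _)
    exact sz_tbl _ _ _

theorem PTime.dblR {I : α → Inst} {w B : α → ℕ} {R : α → List ℕ}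
    {t Z : α → List (List Bool)} {j : α → ℕ} (hI : PTime I) (hw : PTime w) (hB : PTime B)
    (hR : PTime R) (ht : PTime t) (hZ : PTime Z) (hj : PTime j) :
    PTime (fun x => MP_85af13_lc.dblR (I x) (w x) (B x) (R x) (t x) (Z x) (j x)) := by
  unfold MP_85af13_lc.dblR
  refine PTime.roundsR hI hw hB hR ?_ ?_
  · exact PTime.map (f := fun x (l : List Bool) => l.drop (j x)) (PTime.snd.comp hI)
      (PTime.drop PTime.snd (hj.comp PTime.fst))
  · refine PTime.tbl (g := fun x v => bif memB v (R x) then false :: (Z x).getD v [] else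
      ((t x).getD v []).drop (j x)) (PTime.size hI) hw ?_
    refine PTime.cond (PTime.memB PTime.snd (hR.comp PTime.fst)) ?_ ?_
    · exact PTime.cons (PTime.const _) (PTime.nth (hZ.comp PTime.fst) PTime.snd (PTime.const _))
    · exact PTime.drop (PTime.nth (ht.comp PTime.fst) PTime.snd (PTime.const _))
        (hj.comp PTime.fst)

theorem PTime.baseR {I : α → Inst} {w B : α → ℕ} {R : α → List ℕ} {t : α → List (List Bool)}
    (hI : PTime I) (hw : PTime w) (hB : PTime B) (hR : PTime R) (ht : PTime t) :
    PTime (fun x => MP_85af13_lc.baseR (I x) (w x) (B x) (R x) (t x)) := by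
  unfold MP_85af13_lc.baseR
  have hw1 : PTime (fun x => w x + 1) := PTime.succ hw
  have hf : PTime (fun y : α × List (List Bool) × ℕ =>
      MP_85af13_lc.dblR (I y.1) (w y.1 + 1) (B y.1) (R y.1) (t y.1) y.2.1 y.2.2) :=
    PTime.dblR (hI.comp PTime.fst) (hw1.comp PTime.fst) (hB.comp PTime.fst) (hR.comp PTime.fst)
      (ht.comp PTime.fst) (by fun_prop) (by fun_prop)
  exact PTime.foldl (f := fun y : α × List (List Bool) × ℕ =>
      MP_85af13_lc.dblR (I y.1) (w y.1 + 1) (B y.1) (R y.1) (t y.1) y.2.1 y.2.2)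
    (PTime.reverse (PTime.range hw)) (PTime.const []) hf
    (pb_tbl (PTime.size hI) hw1) fun x l' _ => baseR_state (I x) (w x) (B x) (R x) (t x) l'

theorem PTime.compL {I : α → Inst} {R : α → List ℕ} {v : α → ℕ} (hI : PTime I) (hR : PTime R)
    (hv : PTime v) : PTime (fun x => MP_85af13_lc.compL (I x) (R x) (v x)) := by
  have hI3 : PTime (fun y : α × List ℕ × ℕ => I y.1) := hI.comp PTime.fst
  have hR3 : PTime (fun y : α × List ℕ × ℕ => R y.1) := hR.comp PTime.fst
  have hv3 : PTime (fun y : α × List ℕ × ℕ => v y.1) := hv.comp PTime.fst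
  have hx3 : PTime (fun y : α × List ℕ × ℕ => y.2.2) := by fun_prop
  have hS3 : PTime (fun y : α × List ℕ × ℕ => y.2.1) := by fun_prop
  have hfw : PTime (fun x => MP_85af13_lc.fwL (I x) (R x) (v x)) := by
    unfold MP_85af13_lc.fwL
    refine PTime.growN (t := fun x S z => memB z (R x) && (decide (z = v x) ||
      S.any fun u => leB [true] (MP_85af13_lc.mlB (I x) u z))) (PTime.size hI) (PTime.size hI) ?_
    refine PTime.and (PTime.memB hx3 hR3) (PTime.or (PTime.eq hx3 hv3) ?_)
    exact PTime.any (p := fun (y : α × List ℕ × ℕ) u => leB [true] (MP_85af13_lc.mlB (I y.1) u y.2.2))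
      hS3 (PTime.leB' (PTime.const _) (PTime.mlB (hI3.comp PTime.fst) PTime.snd
        (hx3.comp PTime.fst)))
  have hbw : PTime (fun x => MP_85af13_lc.bwL (I x) (R x) (v x)) := by
    unfold MP_85af13_lc.bwL
    refine PTime.growN (t := fun x S z => memB z (R x) && (decide (z = v x) ||
      S.any fun u => leB [true] (MP_85af13_lc.mlB (I x) z u))) (PTime.size hI) (PTime.size hI) ?_
    refine PTime.and (PTime.memB hx3 hR3) (PTime.or (PTime.eq hx3 hv3) ?_)
    exact PTime.any (p := fun (y : α × List ℕ × ℕ) u => leB [true] (MP_85af13_lc.mlB (I y.1) y.2.2 u))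
      hS3 (PTime.leB' (PTime.const _) (PTime.mlB (hI3.comp PTime.fst) (hx3.comp PTime.fst)
        PTime.snd))
  unfold MP_85af13_lc.compL
  exact PTime.filter (p := fun x z => memB z (MP_85af13_lc.bwL (I x) (R x) (v x))) hfw
    (PTime.memB PTime.snd (hbw.comp PTime.fst))

end

end Pool.Agent.Work.MP_85af13_lc
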